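import Pool.Agent.H505R3.SLM.Dim
import Pool.Agent.H213R3.PerBorder

/-!
# The degree bound for multiples
-/

set_option autoImplicit false
set_option linter.unusedSectionVars false

open MvPolynomial Module

namespace Pool.Agent.H505R3.SLM

open Pool.Agent.H546R2.SL

lemma exists_coeff {K : Type*} [Field K] {ι : Type} [Fintype ι] [DecidableEq ι] (z0 : ι)
    (p : MvPolynomial ι K) (e : ℕ) (he : 0 < e) (hp : p.IsHomogeneous e)
    (h : eval (Pi.single z0 1) p ≠ 0) : ∃ m : ι →₀ ℕ, m z0 ≠ 0 ∧ coeff m p ≠ 0 := by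
  by_contra hcon
  push Not at hcon
  apply h
  rw [eval_eq']
  apply Finset.sum_eq_zero
  intro m hm
  have hm' := MvPolynomial.mem_support_iff.mp hm
  have h0 : m z0 = 0 := by
    by_contra h0
    exact hm' (hcon m h0)
  have hdeg : ∑ i, m i = e := by
    have := hp hm'
    rw [Finsupp.weight_apply, Finsupp.sum_fintype _ _ (fun _ => by simp)] at this
    simpa using this
  obtain ⟨i, hi⟩ : ∃ i, m i ≠ 0 := by
    by_contra hcon
    push Not at hcon
    rw [Finset.sum_eq_zero (fun i _ => hcon i)] at hdeg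
    omega
  have hiz : i ≠ z0 := by
    rintro rfl
    exact hi h0
  rw [Finset.prod_eq_zero (Finset.mem_univ i), mul_zero]
  rw [Pi.single_eq_of_ne hiz, zero_pow hi]

/-- the abstract bound -/
theorem mult_ineq.{u} (hA : TaskA) (hB : TaskB) (hC : TaskC.{u}) (hF : TaskF.{u}) (hG : TaskG.{u})
    (K : Type u) [Field K] [IsAlgClosed K] [CharZero K] (ι σ : Type) [Fintype ι] [Fintype σ]
    [DecidableEq ι] [DecidableEq σ] (z0 z1 : ι) (hz : z0 ≠ z1)
    (S : σ → MvPolynomial ι K) (hS : ∀ u, S u ∈ restrictTotalDegree ι K 1)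
    (f g : MvPolynomial σ K) (hfg : f * g ≠ 0) (hSf : aeval S f = 0)
    (V : Type) (y : V → MvPolynomial ι K) (e : ℕ) (he : 0 < e)
    (hyh : ∀ v, (y v).IsHomogeneous e)
    (hy0 : ∀ ξ : ι → K, (∀ v, eval ξ (y v) = 0) → ξ = 0)
    (hyY : ∀ v, ∃ (c : K) (u : σ), y v = C c * aeval S (pderiv u f))
    (s : ℕ) (M : Finset ℕ) (p : ℕ → MvPolynomial σ K) (hp : NSLP s M p)
    (hpf : ∃ i < s, f * g = p i) :
    e ^ (Fintype.card ι - 2) ≤ 2 ^ (3 * M.card) * 3 ^ Fintype.card ι := by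
  classical
  set Y : σ → MvPolynomial ι K := fun u => aeval S (pderiv u f) with hY
  obtain ⟨N, hN⟩ := exists_degree_bound y hy0
  -- primality
  have hsub : ∀ i : ι, (X i ^ N : MvPolynomial ι K) ∈ Ideal.span (Set.range Y) := by
    intro i
    have h1 := hN N le_rfl (X i ^ N) (isHomogeneous_X_pow i N)
    refine (Ideal.span_le.mpr ?_) h1
    rintro _ ⟨v, rfl⟩
    obtain ⟨c, u, hcu⟩ := hyY v
    rw [SetLike.mem_coe, hcu]
    exact Ideal.mul_mem_left _ _ (Ideal.subset_span ⟨u, rfl⟩)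
  have hPp : Prime (PY Y) := hC K ι σ z0 z1 hz N Y (hsub z0) (hsub z1)
  obtain ⟨o, Q, Q', hQ, hQ', hQ0, hPQ, hQd⟩ := hF K ι σ S f g hfg hSf hPp.ne_zero
  obtain ⟨W, hW, hgood, hHW, hdW⟩ := hG K ι σ S hS s M p hp (f * g) hpf (o + 1) o Q Q' hQ hQ'
  have hdW' : ∀ u, spz K ι σ (pderiv (Sum.inr u) (Q.coeff 0)) ∈ W := by
    intro u
    rw [← hQd u]
    exact hdW u
  -- a coefficient involving `z0`
  obtain ⟨v, hv⟩ : ∃ v, eval (Pi.single z0 1) (y v) ≠ 0 := by
    by_contra hcon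
    push Not at hcon
    have := congrFun (hy0 _ hcon) z0
    rw [Pi.single_eq_same] at this
    exact one_ne_zero this
  obtain ⟨m, hm, hmv⟩ := exists_coeff z0 (y v) e he (hyh v) hv
  obtain ⟨c, u, hcu⟩ := hyY v
  have hmu : coeff m (Y u) ≠ 0 := by
    intro h
    apply hmv
    rw [hcu, coeff_C_mul]
    change c * coeff m (Y u) = 0
    rw [h, mul_zero]
  have hdim := fun T => dim_bound Y hPp (Q.coeff 0) hQ0 hPQ W hgood.fg hW hHW hdW' y e hyh hyY N hN
    z0 u m hm hmu T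
  apply hB ι (e ^ (Fintype.card ι - 2)) (2 ^ (3 * M.card)) (3 * (Fintype.card ι + N))
  intro t
  have h1 := hA ι z0 z1 hz e N t (t + Fintype.card ι + N) he rfl
  have h2 := hdim (t + Fintype.card ι + N)
  have h3 := hgood.bound (3 * (t + Fintype.card ι + N))
  rw [show 3 * t + 3 * (Fintype.card ι + N) = 3 * (t + Fintype.card ι + N) by ring]
  exact h1.trans (h2.trans h3)

/-- the bound for the permanent over an algebraically closed field -/
theorem per_mult_ineq.{u} (hA : TaskA) (hB : TaskB) (hC : TaskC.{u}) (hD : TaskD.{u})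
    (hF : TaskF.{u}) (hG : TaskG.{u})
    (K : Type u) [Field K] [IsAlgClosed K] [CharZero K] (q h k p N : ℕ) (hq : 0 < q) (hh : 0 < h)
    (hk : 2 ≤ k)
    (hN : N = (q + q) * (4 * k + h) + h * (2 * k + h + 2) + (3 * k + h + 1) + p)
    (g : MvPolynomial (Fin N × Fin N) K) (hg : g ≠ 0)
    (s : ℕ) (M : Finset ℕ) (P : ℕ → MvPolynomial (Fin N × Fin N) K) (hP : NSLP s M P)
    (hpf : ∃ i < s, perN K N * g = P i) (hper : perN K N ≠ 0) :
    (k - 1) ^ (q * ((q + q) * (h * k)) - 2) ≤ 2 ^ (3 * M.card) * 3 ^ (q * ((q + q) * (h * k))) := by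
  classical
  obtain ⟨S, V, y, hS, hS0, hyh, hy0, hyY⟩ := hD K q h k p N hk hN
  have hcard : Fintype.card (Fin q × Fin (q + q) × Fin h × Fin k) =
      q * ((q + q) * (h * k)) := by
    simp [Fintype.card_prod]
  have key := mult_ineq hA hB hC hF hG K (Fin q × Fin (q + q) × Fin h × Fin k) (Fin N × Fin N)
    (⟨0, hq⟩, ⟨0, by omega⟩, ⟨0, hh⟩, ⟨0, by omega⟩) (⟨0, hq⟩, ⟨0, by omega⟩, ⟨0, hh⟩, ⟨1, by omega⟩)
    (by
      intro h
      have := congrArg (fun x => (x.2.2.2 : Fin k).val) h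
      simp at this)
    S hS (perN K N) g (mul_ne_zero hper hg) hS0 V y (k - 1) (by omega) hyh hy0 hyY s M P hP hpf
  rw [hcard] at key
  exact key

end Pool.Agent.H505R3.SLM
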