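import Pool.Agent.H505R3.SLM.Bound
import Pool.Agent.H802R3.SLM.TaskF

/-!
# Initial forms
-/

set_option autoImplicit false
set_option linter.unusedSectionVars false

open MvPolynomial Module

namespace Pool.Agent.H505R3.SLM

open Pool.Agent.H546R2.SL

variable {K : Type*} [Field K] {ι σ : Type*} [Fintype σ]

/-- the initial form along `S` -/
noncomputable def Lead (S : σ → MvPolynomial ι K) (h : MvPolynomial σ K) :
    MvPolynomial (ι ⊕ σ) K := (Phi S h).trailingCoeff

lemma lead_mul (S : σ → MvPolynomial ι K) (g h : MvPolynomial σ K) :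
    Lead S (g * h) = Lead S g * Lead S h := by
  unfold Lead
  rw [map_mul, Polynomial.trailingCoeff_mul]

lemma lead_one (S : σ → MvPolynomial ι K) : Lead S (1 : MvPolynomial σ K) = 1 := by
  unfold Lead
  rw [map_one]
  simp [Polynomial.trailingCoeff]

lemma lead_pow (S : σ → MvPolynomial ι K) (g : MvPolynomial σ K) (d : ℕ) :
    Lead S (g ^ d) = Lead S g ^ d := by
  induction d with
  | zero => rw [pow_zero, pow_zero, lead_one]
  | succ d ih => rw [pow_succ, pow_succ, lead_mul, ih]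

lemma lead_prod (S : σ → MvPolynomial ι K) {J : Type*} (Z : Finset J)
    (h : J → MvPolynomial σ K) : Lead S (∏ j ∈ Z, h j) = ∏ j ∈ Z, Lead S (h j) := by
  classical
  induction Z using Finset.induction_on with
  | empty => rw [Finset.prod_empty, Finset.prod_empty, lead_one]
  | insert j Z hj ih => rw [Finset.prod_insert hj, Finset.prod_insert hj, lead_mul, ih]

lemma lead_ne_zero (S : σ → MvPolynomial ι K) {h : MvPolynomial σ K} (hh : h ≠ 0) :
    Lead S h ≠ 0 :=
  Polynomial.trailingCoeff_nonzero_iff_nonzero.mpr (TF.Phi_ne_zero S hh)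

lemma lead_of_ne (S : σ → MvPolynomial ι K) (h : MvPolynomial σ K) (hh : aeval S h ≠ 0) :
    Lead S h = rename Sum.inl (aeval S h) := by
  have h1 : (Phi S h).coeff 0 ≠ 0 := by
    rw [TF.Phi_coeff_zero]
    intro h0
    exact hh (rename_injective _ Sum.inl_injective (by rw [h0, map_zero]))
  have h2 : (Phi S h).natTrailingDegree = 0 := by
    have := Polynomial.natTrailingDegree_le_of_ne_zero h1
    omega
  unfold Lead Polynomial.trailingCoeff
  rw [h2, TF.Phi_coeff_zero]

lemma lead_f (S : σ → MvPolynomial ι K) (f : MvPolynomial σ K) (hS : aeval S f = 0)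
    (hP : Pf S f ≠ 0) : Lead S f = Pf S f := by
  have h0 : (Phi S f).coeff 0 = 0 := by rw [TF.Phi_coeff_zero, hS, map_zero]
  have h1 : (Phi S f).coeff 1 ≠ 0 := by rw [TF.Phi_coeff_one]; exact hP
  have hne : Phi S f ≠ 0 := by
    intro h
    rw [h] at h1
    exact h1 (Polynomial.coeff_zero 1)
  have h2 : (Phi S f).natTrailingDegree = 1 := by
    have h3 := Polynomial.natTrailingDegree_le_of_ne_zero h1
    have h4 : (Phi S f).natTrailingDegree ≠ 0 := by
      intro h4
      have h5 := Polynomial.trailingCoeff_nonzero_iff_nonzero.mpr hne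
      unfold Polynomial.trailingCoeff at h5
      rw [h4] at h5
      exact h5 h0
    omega
  unfold Lead Polynomial.trailingCoeff
  rw [h2, TF.Phi_coeff_one]

/-- the generic linear combination does not divide a polynomial without the `v` -/
lemma not_dvd_rename (Y : σ → MvPolynomial ι K) (a : MvPolynomial ι K) (ha : a ≠ 0) :
    ¬ PY Y ∣ rename Sum.inl a := by
  rintro ⟨q, hq⟩
  have h1 := congrArg (aeval (Sum.elim X fun _ => 0) :
    MvPolynomial (ι ⊕ σ) K → MvPolynomial ι K) hq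
  rw [map_mul, aeval_rename] at h1
  have h2 : aeval (Sum.elim X (fun _ => 0) : ι ⊕ σ → MvPolynomial ι K) (PY Y) = 0 := by
    unfold PY
    rw [map_sum]
    apply Finset.sum_eq_zero
    intro u _
    rw [map_mul, aeval_X, Sum.elim_inr, mul_zero]
  rw [h2, zero_mul] at h1
  apply ha
  have h3 : (Sum.elim X (fun _ => 0) : ι ⊕ σ → MvPolynomial ι K) ∘ Sum.inl = X := by
    funext i; rfl
  rw [h3, aeval_X_left] at h1
  exact h1

/-- the initial form and its derivatives -/
lemma init_exists (S : σ → MvPolynomial ι K) (Y : σ → MvPolynomial ι K)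
    (h : MvPolynomial σ K) (hh : h ≠ 0) (hdvd : PY Y ∣ Lead S h) :
    ∃ (o : ℕ) (Q : Polynomial (MvPolynomial (ι ⊕ σ) K))
      (Q' : σ → Polynomial (MvPolynomial (ι ⊕ σ) K)),
      Phi S h = Polynomial.X ^ (o + 1) * Q ∧
      (∀ u, Phi S (pderiv u h) = Polynomial.X ^ o * Q' u) ∧
      Q.coeff 0 ≠ 0 ∧ PY Y ∣ Q.coeff 0 ∧ ∀ u, (Q' u).coeff 0 = pderiv (Sum.inr u) (Q.coeff 0) := by
  have hΦ := TF.Phi_ne_zero S hh
  obtain ⟨n, hn⟩ : ∃ n, n = (Phi S h).natTrailingDegree := ⟨_, rfl⟩
  have h1 : Polynomial.X ^ n ∣ Phi S h := by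
    rw [Polynomial.X_pow_dvd_iff]
    intro d hd
    exact Polynomial.coeff_eq_zero_of_lt_natTrailingDegree (hn ▸ hd)
  obtain ⟨Q, hQ⟩ := h1
  have hco : ∀ j, (Phi S h).coeff (j + n) = Q.coeff j := by
    intro j
    rw [hQ, Polynomial.coeff_X_pow_mul]
  have hQ0 : Q.coeff 0 = Lead S h := by
    rw [← hco 0, zero_add, hn]
    rfl
  have hn0 : n ≠ 0 := by
    intro h0
    rw [← hQ0, ← hco 0, h0, TF.Phi_coeff_zero] at hdvd
    have h2 : aeval S h ≠ 0 := by
      intro h3
      have h4 := lead_ne_zero S hh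
      rw [← hQ0, ← hco 0, h0, TF.Phi_coeff_zero, h3, map_zero] at h4
      exact h4 rfl
    exact not_dvd_rename Y _ h2 hdvd
  obtain ⟨o, rfl⟩ : ∃ o, n = o + 1 := ⟨n - 1, by omega⟩
  have hdv : ∀ u, ∃ Q' : Polynomial (MvPolynomial (ι ⊕ σ) K),
      Phi S (pderiv u h) = Polynomial.X ^ o * Q' := by
    intro u
    have : Polynomial.X ^ o ∣ Phi S (pderiv u h) := by
      rw [Polynomial.X_pow_dvd_iff]
      intro d hd
      rw [TF.Phi_pderiv]
      have h0 : (Phi S h).coeff (d + 1) = 0 := by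
        have h1 : Polynomial.X ^ (o + 1) ∣ Phi S h := ⟨_, hQ⟩
        rw [Polynomial.X_pow_dvd_iff] at h1
        exact h1 _ (by omega)
      rw [h0, map_zero]
    exact this
  choose Q' hQ' using hdv
  refine ⟨o, Q, Q', hQ, hQ', ?_, ?_, ?_⟩
  · rw [hQ0]; exact lead_ne_zero S hh
  · rw [hQ0]; exact hdvd
  · intro u
    have h1 : (Q' u).coeff 0 = (Phi S (pderiv u h)).coeff (0 + o) := by
      rw [hQ' u, Polynomial.coeff_X_pow_mul]
    rw [h1, TF.Phi_pderiv]
    have h2 := hco 0
    rw [← h2]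
    congr 2

/-- one of the factors has an initial form divisible by the generic linear combination -/
lemma exists_index (S : σ → MvPolynomial ι K) (f : MvPolynomial σ K) (hSf : aeval S f = 0)
    (hP : Prime (Pf S f)) {J : Type*} (Z : Finset J) (h : J → MvPolynomial σ K)
    (hh : ∀ j ∈ Z, h j ≠ 0) (A : MvPolynomial σ K) (hA : aeval S A ≠ 0) (d : ℕ)
    (g : MvPolynomial σ K) (hid : A ^ d * ∏ j ∈ Z, h j = f * g) :
    ∃ j ∈ Z, Pf S f ∣ Lead S (h j) := by
  have h1 := congrArg (Lead S) hid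
  rw [lead_mul, lead_pow, lead_prod, lead_mul, lead_f S f hSf hP.ne_zero, lead_of_ne S A hA] at h1
  have h2 : Pf S f ∣ rename Sum.inl (aeval S A) ^ d * ∏ j ∈ Z, Lead S (h j) := by
    rw [h1]
    exact dvd_mul_right _ _
  rcases hP.dvd_or_dvd h2 with h3 | h3
  · exact absurd (hP.dvd_of_dvd_pow h3) (not_dvd_rename (fun u => aeval S (pderiv u f)) _ hA)
  · exact (Prime.dvd_finset_prod_iff hP _).mp h3

end Pool.Agent.H505R3.SLM
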