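import Pool.Agent.H505R3.SLM.Stmts

/-!
# Polynomials vanishing where the permanent vanishes
-/

set_option autoImplicit false
set_option linter.unusedSectionVars false

open MvPolynomial

namespace Pool.Agent.H505R3.SLM

open Pool.Agent.H546R2.SL

section
variable {K : Type*} [Field K] {σ : Type*} [DecidableEq σ]

/-- `p` does not depend on the variable `x` -/
def Free (x : σ) (p : MvPolynomial σ K) : Prop :=
  ∀ (a : σ → K) (c : K), eval (Function.update a x c) p = eval a p

lemma Free.mul {x : σ} {p q : MvPolynomial σ K} (hp : Free x p) (hq : Free x q) :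
    Free x (p * q) := fun a c => by rw [map_mul, map_mul, hp, hq]

lemma Free.add {x : σ} {p q : MvPolynomial σ K} (hp : Free x p) (hq : Free x q) :
    Free x (p + q) := fun a c => by rw [map_add, map_add, hp, hq]

lemma Free.neg {x : σ} {p : MvPolynomial σ K} (hp : Free x p) :
    Free x (-p) := fun a c => by rw [map_neg, map_neg, hp]

lemma Free.pow {x : σ} {p : MvPolynomial σ K} (hp : Free x p) (n : ℕ) :
    Free x (p ^ n) := fun a c => by rw [map_pow, map_pow, hp]

/-- pseudo-division by a linear polynomial -/
lemma pseudo (x : σ) (A B f : MvPolynomial σ K) (hA : Free x A) (hB : Free x B)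
    (hf : f = A * X x + B) (F : MvPolynomial σ K) :
    ∃ (d : ℕ) (g r : MvPolynomial σ K), A ^ d * F = f * g + r ∧ Free x r := by
  induction F using MvPolynomial.induction_on with
  | C c => exact ⟨0, 0, C c, by ring, fun a b => by rw [eval_C, eval_C]⟩
  | add p q hp hq =>
    obtain ⟨d, g, r, h1, h2⟩ := hp
    obtain ⟨d', g', r', h1', h2'⟩ := hq
    refine ⟨d + d', A ^ d' * g + A ^ d * g', A ^ d' * r + A ^ d * r', ?_,
      ((hA.pow _).mul h2).add ((hA.pow _).mul h2')⟩
    calc A ^ (d + d') * (p + q) = A ^ d' * (A ^ d * p) + A ^ d * (A ^ d' * q) := by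
          rw [pow_add]; ring
      _ = _ := by rw [h1, h1']; ring
  | mul_X p u hp =>
    obtain ⟨d, g, r, h1, h2⟩ := hp
    by_cases hu : u = x
    · subst hu
      refine ⟨d + 1, A * g * X u + r, -(r * B), ?_, (h2.mul hB).neg⟩
      calc A ^ (d + 1) * (p * X u) = A * X u * (A ^ d * p) := by rw [pow_succ]; ring
        _ = A * X u * (f * g) + r * (A * X u) := by rw [h1]; ring
        _ = A * X u * (f * g) + r * (f - B) := by rw [hf]; ring
        _ = _ := by ring
    · refine ⟨d, g * X u, r * X u, ?_, h2.mul ?_⟩
      · calc A ^ d * (p * X u) = (A ^ d * p) * X u := by ring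
          _ = _ := by rw [h1]; ring
      · intro a c
        rw [eval_X, eval_X, Function.update_of_ne hu]

/-- division when vanishing -/
lemma vanish_dvd [Infinite K] (x : σ) (A B f : MvPolynomial σ K) (hA : Free x A) (hB : Free x B)
    (hA0 : A ≠ 0) (hf : f = A * X x + B) (F : MvPolynomial σ K)
    (hF : ∀ a : σ → K, eval a f = 0 → eval a F = 0) :
    ∃ (d : ℕ) (g : MvPolynomial σ K), A ^ d * F = f * g := by
  obtain ⟨d, g, r, h1, h2⟩ := pseudo x A B f hA hB hf F
  refine ⟨d, g, ?_⟩
  have h3 : A * r = 0 := by
    apply MvPolynomial.funext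
    intro a
    rw [map_mul, map_zero]
    by_cases ha : eval a A = 0
    · rw [ha, zero_mul]
    · set b := Function.update a x (-(eval a B) / eval a A) with hb
      have h4 : eval b f = 0 := by
        rw [hf, map_add, map_mul, eval_X, hA, hB, hb, Function.update_self]
        field_simp
        ring
      have h5 := congrArg (eval b) h1
      rw [map_mul, hF b h4, mul_zero, map_add, map_mul, h4, zero_mul, zero_add, h2] at h5
      rw [← h5, mul_zero]
  rw [h1, (mul_eq_zero.mp h3).resolve_left hA0, add_zero]

end

/-- the permanent is linear in each variable -/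
lemma per_split (K : Type*) [Field K] (N : ℕ) (x : Fin N × Fin N) :
    Free x (pderiv x (perN K N)) ∧
      ∃ B, Free x B ∧ perN K N = pderiv x (perN K N) * X x + B := by
  classical
  obtain ⟨i, j⟩ := x
  have hev : ∀ (s : Equiv.Perm (Fin N)) (I : Finset (Fin N)),
      (∀ k ∈ I, (s k, k) ≠ (i, j)) → Free (i, j) (∏ k ∈ I, (X (s k, k) :
        MvPolynomial (Fin N × Fin N) K)) := by
    intro s I hI a c
    rw [map_prod, map_prod]
    refine Finset.prod_congr rfl fun k hk => ?_
    rw [eval_X, eval_X, Function.update_of_ne (hI k hk)]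
  have hsum : ∀ (f : Equiv.Perm (Fin N) → MvPolynomial (Fin N × Fin N) K),
      (∀ s, Free (i, j) (f s)) → Free (i, j) (∑ s, f s) := by
    intro f hf a c
    rw [map_sum, map_sum]
    exact Finset.sum_congr rfl fun s _ => hf s a c
  have hzero : Free (i, j) (0 : MvPolynomial (Fin N × Fin N) K) := fun a c => by
    rw [map_zero, map_zero]
  have hd : pderiv (i, j) (perN K N) = ∑ s : Equiv.Perm (Fin N),
      if s j = i then ∏ k ∈ Finset.univ.erase j, X (s k, k) else 0 := by
    rw [pderiv_perN]
    unfold Matrix.permanent
    apply Finset.sum_congr rfl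
    intro s _
    simp only [Matrix.of_apply]
    split_ifs with h
    · rw [← Finset.mul_prod_erase Finset.univ _ (Finset.mem_univ j), if_pos h, if_pos rfl, one_mul]
      apply Finset.prod_congr rfl
      intro k hk
      rw [if_neg]
      intro hk2
      apply (Finset.mem_erase.mp hk).1
      exact s.injective (by rw [hk2, h])
    · obtain ⟨k, hk⟩ := s.surjective i
      apply Finset.prod_eq_zero (Finset.mem_univ k)
      rw [if_pos hk, if_neg]
      rintro rfl
      exact h hk
  refine ⟨?_, ∑ s : Equiv.Perm (Fin N), if s j = i then 0 else ∏ k, X (s k, k), ?_, ?_⟩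
  · rw [hd]
    apply hsum
    intro s
    split_ifs with h
    · apply hev
      intro k hk h'
      exact (Finset.mem_erase.mp hk).1 (congrArg Prod.snd h')
    · exact hzero
  · apply hsum
    intro s
    split_ifs with h
    · exact hzero
    · apply hev
      intro k _ h'
      apply h
      have h1 := congrArg Prod.snd h'
      have h2 := congrArg Prod.fst h'
      simp only at h1 h2
      rw [← h1]; exact h2
  · rw [hd, Finset.sum_mul, ← Finset.sum_add_distrib]
    unfold perN Matrix.permanent
    refine Finset.sum_congr rfl fun s _ => ?_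
    simp only [Matrix.of_apply]
    split_ifs with h
    · rw [← Finset.prod_erase_mul Finset.univ _ (Finset.mem_univ j), h, add_zero]
    · rw [zero_mul, zero_add]

end Pool.Agent.H505R3.SLM
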