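import Pool.Agent.H505R3.SLM.Core
import Pool.Agent.H505R3.SLM.Vanish
import Pool.Agent.H364R3.SLM.TaskG
import Pool.Agent.H662R3.SLM.TaskB
import Pool.Agent.H023R3.SLM.TaskA
import Pool.Agent.H218R3.SLM.TaskC
import Pool.Agent.H269R3.SLM.TaskD

/-!
# The core inequality
-/

set_option autoImplicit false
set_option linter.unusedSectionVars false

open MvPolynomial Module

namespace Pool.Agent.H505R3.SLM

open Pool.Agent.H546R2.SL

universe u

/-- the bound from a good space containing an initial form and its derivatives -/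
theorem lead_ineq
    (K : Type u) [Field K] [IsAlgClosed K] [CharZero K] (ι σ : Type) [Fintype ι] [Fintype σ]
    [DecidableEq ι] (z0 z1 : ι) (hz : z0 ≠ z1)
    (Y : σ → MvPolynomial ι K) (hPp : Prime (PY Y)) (H : MvPolynomial (ι ⊕ σ) K) (hH0 : H ≠ 0)
    (hPH : PY Y ∣ H) (R : ℕ) (W : Submodule (Om K σ) (MvPolynomial ι (Om K σ)))
    (hW : restrictTotalDegree ι (Om K σ) 1 ≤ W) (hgood : Good (Nm ι) R W)
    (hHW : spz K ι σ H ∈ W) (hdW : ∀ u, spz K ι σ (pderiv (Sum.inr u) H) ∈ W)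
    (V : Type) (y : V → MvPolynomial ι K) (e : ℕ) (he : 0 < e)
    (hyh : ∀ v, (y v).IsHomogeneous e)
    (hy0 : ∀ ξ : ι → K, (∀ v, eval ξ (y v) = 0) → ξ = 0)
    (hyY : ∀ v, ∃ (c : K) (u : σ), y v = C c * Y u) :
    e ^ (Fintype.card ι - 2) ≤ 2 ^ R * 3 ^ Fintype.card ι := by
  classical
  obtain ⟨N, hN⟩ := exists_degree_bound y hy0
  obtain ⟨v, hv⟩ : ∃ v, eval (Pi.single z0 1) (y v) ≠ 0 := by
    by_contra hcon
    push Not at hcon
    have := congrFun (hy0 _ hcon) z0
    rw [Pi.single_eq_same] at this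
    exact one_ne_zero this
  obtain ⟨m, hm, hmv⟩ := exists_coeff z0 (y v) e he (hyh v) hv
  obtain ⟨c, u, hcu⟩ := hyY v
  have hmu : coeff m (Y u) ≠ 0 := by
    intro h
    apply hmv
    rw [hcu, coeff_C_mul, h, mul_zero]
  have hdim := fun T => dim_bound Y hPp H hH0 hPH W hgood.fg hW hHW hdW y e hyh hyY N hN
    z0 u m hm hmu T
  apply Pool.Agent.H662R3.SLM.taskB ι (e ^ (Fintype.card ι - 2)) (2 ^ R)
    (3 * (Fintype.card ι + N))
  intro t
  have h1 := Pool.Agent.H023R3.SLM.taskA ι z0 z1 hz e N t (t + Fintype.card ι + N) he rfl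
  have h2 := hdim (t + Fintype.card ι + N)
  have h3 := hgood.bound (3 * (t + Fintype.card ι + N))
  rw [show 3 * t + 3 * (Fintype.card ι + N) = 3 * (t + Fintype.card ι + N) by ring]
  exact h1.trans (h2.trans h3)

section Border

open Pool.Agent.H632R2.Border Pool.Agent.H364R3.SLM

/-- the gradient and the value of a limit of a computed polynomial lie in a good space -/
theorem good_border' {Ω F : Type*} [Field Ω] [Field F] {σ ι : Type*} [Fintype ι]
    {O : ValuationSubring F} {φ : O →+* Ω} {j : Ω →+* O}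
    (hj : ∀ c, φ (j c) = c) (S : σ → MvPolynomial ι Ω)
    (hS : ∀ v, S v ∈ restrictTotalDegree ι Ω 1) (s : ℕ) (M : Finset ℕ)
    (g : ℕ → MvPolynomial σ F) (hg : NSLP s M g) (G : MvPolynomial σ O) (f : MvPolynomial σ Ω)
    (hG : ∃ i < s, map O.subtype G = g i) (hf : map φ G = f) :
    ∃ W : Submodule Ω (MvPolynomial ι Ω), restrictTotalDegree ι Ω 1 ≤ W ∧
      Good (Nm ι) (3 * M.card) W ∧ aeval S f ∈ W ∧ ∀ v, aeval S (pderiv v f) ∈ W := by
  classical
  set S' : σ → MvPolynomial ι F := fun v => map (O.subtype.comp j) (S v) with hS'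
  have hS'd : ∀ v, S' v ∈ restrictTotalDegree ι F 1 := by
    intro v
    rw [mem_restrictTotalDegree]
    exact (totalDegree_map_le _ _).trans ((mem_restrictTotalDegree _ _ _).mp (hS v))
  obtain ⟨i, hi, hGi⟩ := hG
  obtain ⟨W, h0, hW, hgW⟩ := forward' (good_W₀ (K := F) (ι := ι))
    (aeval S') (fun v => by rw [aeval_X]; exact hS'd v) s M _ hg s le_rfl
  obtain ⟨W', hWW', hW', lam, _, hexp⟩ := backward' (aeval S') s M _ hg _ W hW hgW
    (map O.subtype G) ⟨i, hi, hGi⟩ s le_rfl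
  have hcomp : (fun v => map O.subtype (map j (S v))) = S' := by
    funext v; rw [map_map]
  have hcomp2 : (fun v => map φ (map j (S v))) = S := by
    funext v
    rw [map_map]
    have : φ.comp j = RingHom.id Ω := RingHom.ext hj
    rw [this, map_id]
  refine ⟨spec O φ j hj W', restrict_le_spec (h0.trans hWW'), spec_good (hW'.mono ?_), ?_,
    fun v => ?_⟩
  · have h1 := lowM_le M s
    have h2 := highM_le M (s - s) s
    omega
  · refine ⟨aeval (fun v => map j (S v)) G, ?_, ?_⟩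
    · rw [map_aeval_comm, hcomp, hGi]
      exact hWW' (hgW i hi)
    · rw [map_aeval_comm, hcomp2, hf]
  · refine ⟨aeval (fun v => map j (S v)) (pderiv v G), ?_, ?_⟩
    · rw [map_aeval_comm, hcomp, ← pderiv_map]
      obtain ⟨μ, hμ, he⟩ := hexp v
      rw [Nat.sub_self, Finset.range_zero, Finset.sum_empty, zero_add] at he
      rw [he]
      exact hμ
    · rw [map_aeval_comm, hcomp2, ← pderiv_map, hf]

/-- from the rational functions to the initial forms -/
theorem good_spec (K : Type*) [Field K] (ι σ : Type*) [Fintype ι] [Fintype σ]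
    (S : σ → MvPolynomial ι K) (R : ℕ) (W : Submodule (RatFunc (Om K σ))
      (MvPolynomial ι (RatFunc (Om K σ))))
    (hW : restrictTotalDegree ι (RatFunc (Om K σ)) 1 ≤ W) (hgood : Good (Nm ι) R W)
    (h : MvPolynomial σ K) (hh : aeval (S2 K S) (map (rho K σ) h) ∈ W)
    (hd : ∀ v, aeval (S2 K S) (map (rho K σ) (pderiv v h)) ∈ W)
    (o o' : ℕ) (Q : Polynomial (MvPolynomial (ι ⊕ σ) K))
    (Q' : σ → Polynomial (MvPolynomial (ι ⊕ σ) K))
    (hQ : Phi S h = Polynomial.X ^ o * Q)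
    (hQ' : ∀ u, Phi S (pderiv u h) = Polynomial.X ^ o' * Q' u) :
    ∃ W : Submodule (Om K σ) (MvPolynomial ι (Om K σ)),
      restrictTotalDegree ι (Om K σ) 1 ≤ W ∧ Good (Nm ι) R W ∧
      spz K ι σ (Q.coeff 0) ∈ W ∧ ∀ u, spz K ι σ ((Q' u).coeff 0) ∈ W :=
  ⟨spec (O0 (Om K σ)) (φ0 (Om K σ)) (ψ0 (Om K σ)) (φψ (Om K σ)) W,
    restrict_le_spec hW, spec_good hgood, spec_mem K S W h o Q hQ hh,
    fun u => spec_mem K S W (pderiv u h) o' (Q' u) (hQ' u) (hd u)⟩

/-- border programs: the good space over the rational functions -/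
theorem good_ratfunc (k K : Type*) [Field k] [Field K] (a : k →+* K) (ι σ : Type*) [Fintype ι]
    [Fintype σ] (S : σ → MvPolynomial ι K) (hS : ∀ u, S u ∈ restrictTotalDegree ι K 1)
    (s : ℕ) (M : Finset ℕ) (g : ℕ → MvPolynomial σ (RatFunc k)) (hg : NSLP s M g)
    (F : MvPolynomial σ (RatFunc k)) (hF : ∃ i < s, F = g i) (h : MvPolynomial σ k)
    (hv : ∀ d, (coeff d F).denom.eval 0 ≠ 0 ∧
      (coeff d F).eval (RingHom.id k) 0 = coeff d h) :
    ∃ W : Submodule (RatFunc (Om K σ)) (MvPolynomial ι (RatFunc (Om K σ))),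
      restrictTotalDegree ι (RatFunc (Om K σ)) 1 ≤ W ∧ Good (Nm ι) (3 * M.card) W ∧
      aeval (S2 K S) (map (rho K σ) (map a h)) ∈ W ∧
      ∀ v, aeval (S2 K S) (map (rho K σ) (pderiv v (map a h))) ∈ W := by
  classical
  set Ω := RatFunc (Om K σ) with hΩ
  set f0 : k →+* Ω := (rho K σ).comp a with hf0
  set ρ := rmap f0 with hρ
  have hg' := hg.map ρ
  have hcoef : ∀ d, coeff d (MvPolynomial.map ρ F) ∈ O0 Ω := by
    intro d
    rw [coeff_map]
    exact rmap_mem _ (hv d).1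
  have hrange : MvPolynomial.map ρ F ∈
      (MvPolynomial.map (σ := σ) (O0 Ω).subtype).range := by
    rw [RingHom.mem_range]
    change _ ∈ Set.range _
    rw [mem_range_map_iff_coeffs_subset]
    intro x hx
    rw [Finset.mem_coe, mem_coeffs_iff] at hx
    obtain ⟨d, _, rfl⟩ := hx
    exact ⟨⟨_, hcoef d⟩, rfl⟩
  obtain ⟨G, hG⟩ := hrange
  have hφ : MvPolynomial.map (φ0 Ω) G = map f0 h := by
    ext d
    rw [coeff_map, coeff_map, ← (hv d).2, ← rmap_eval f0 (hv d).1]
    congr 1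
    apply Subtype.ext
    have h1 := congrArg (coeff d) hG
    rw [coeff_map, coeff_map] at h1
    exact h1
  have hf' : ∃ i < s, MvPolynomial.map (O0 Ω).subtype G =
      (fun i => MvPolynomial.map ρ (g i)) i := by
    obtain ⟨i, hi, hfi⟩ := hF
    refine ⟨i, hi, ?_⟩
    beta_reduce
    rw [← hfi]
    exact hG
  have hS2 : ∀ v, S2 K S v ∈ restrictTotalDegree ι Ω 1 := by
    intro v
    rw [S2]
    apply Submodule.add_mem
    · rw [mem_restrictTotalDegree]
      exact (totalDegree_map_le _ _).trans ((mem_restrictTotalDegree _ _ _).mp (hS v))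
    · rw [mem_restrictTotalDegree, totalDegree_C]
      exact Nat.zero_le _
  obtain ⟨W, h1, h2, h3, h4⟩ := good_border' (φψ Ω) (S2 K S) hS2 s M _ hg' G (map f0 h) hf' hφ
  have e : map f0 h = map (rho K σ) (map a h) := by rw [map_map]
  rw [e] at h3
  refine ⟨W, h1, h2, h3, fun v => ?_⟩
  have h5 := h4 v
  rw [e, pderiv_map] at h5
  exact h5

end Border

end Pool.Agent.H505R3.SLM
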