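import Pool.Agent.H505R3.SLM.Core2

/-!
# The bound for families of polynomials
-/

set_option autoImplicit false
set_option linter.unusedSectionVars false

open MvPolynomial Module

namespace Pool.Agent.H505R3.SLM

open Pool.Agent.H546R2.SL

universe u

/-- approximative program: the polynomial `h` is the limit of a polynomial computed with `M.card`
products over the rational functions -/
def Lim (k : Type*) [Field k] (σ : Type*) (h : MvPolynomial σ k) (m : ℕ) : Prop :=
  ∃ (s : ℕ) (M : Finset ℕ) (g : ℕ → MvPolynomial σ (RatFunc k)) (F : MvPolynomial σ (RatFunc k)),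
    NSLP s M g ∧ (∃ i < s, F = g i) ∧ M.card ≤ m ∧ ∀ d, (coeff d F).denom.eval 0 ≠ 0 ∧
      (coeff d F).eval (RingHom.id k) 0 = coeff d h

lemma perN_ne_zero (K : Type*) [Field K] [CharZero K] (N : ℕ) : perN K N ≠ 0 := by
  intro h
  have h1 := congrArg (eval (fun _ => (1 : K))) h
  unfold perN Matrix.permanent at h1
  simp only [Matrix.of_apply, map_sum, map_zero, map_prod, eval_X, Finset.prod_const_one,
    Finset.sum_const, nsmul_eq_mul, mul_one] at h1
  have h2 : (Finset.univ : Finset (Equiv.Perm (Fin N))).card = 0 := by exact_mod_cast h1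
  rw [Finset.card_eq_zero] at h2
  exact absurd h2 Finset.univ_nonempty.ne_empty

/-- one factor of a product which vanishes with the permanent is hard -/
theorem core_ineq (k : Type u) [Field k] [CharZero k] (a p N : ℕ) (ha : 2 ≤ a)
    (hN : N = (a + a) * (4 * a + a) + a * (2 * a + a + 2) + (3 * a + a + 1) + p)
    {J : Type*} (Z : Finset J) (h : J → MvPolynomial (Fin N × Fin N) k)
    (hh : ∀ j ∈ Z, h j ≠ 0)
    (hvan : ∀ x : Fin N × Fin N → k, eval x (perN k N) = 0 → eval x (∏ j ∈ Z, h j) = 0) :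
    ∃ j ∈ Z, ∀ m : ℕ, Lim k (Fin N × Fin N) (h j) m →
      (a - 1) ^ (a * ((a + a) * (a * a)) - 2) ≤ 2 ^ (3 * m) * 3 ^ (a * ((a + a) * (a * a))) := by
  classical
  set K := AlgebraicClosure k with hK
  set b := algebraMap k K with hb
  set ι := Fin a × Fin (a + a) × Fin a × Fin a with hι
  obtain ⟨S, V, y, hS, hS0, hyh, hy0, hyY⟩ :=
    Pool.Agent.H269R3.SLM.taskD K a a a p N ha hN
  set Y : Fin N × Fin N → MvPolynomial ι K := fun u => aeval S (pderiv u (perN K N)) with hY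
  have hcard : Fintype.card ι = a * ((a + a) * (a * a)) := by
    change Fintype.card (Fin a × Fin (a + a) × Fin a × Fin a) = _
    simp [Fintype.card_prod]
  set z0 : ι := (⟨0, by omega⟩, ⟨0, by omega⟩, ⟨0, by omega⟩, ⟨0, by omega⟩) with hz0
  set z1 : ι := (⟨0, by omega⟩, ⟨0, by omega⟩, ⟨0, by omega⟩, ⟨1, by omega⟩) with hz1
  have hz : z0 ≠ z1 := by
    intro h
    have := congrArg (fun x : ι => (x.2.2.2 : Fin a).val) h
    simp [hz0, hz1] at this
  obtain ⟨D, hD⟩ := exists_degree_bound y hy0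
  have hsub : ∀ i : ι, (X i ^ D : MvPolynomial ι K) ∈ Ideal.span (Set.range Y) := by
    intro i
    have h1 := hD D le_rfl (X i ^ D) (isHomogeneous_X_pow i D)
    refine (Ideal.span_le.mpr ?_) h1
    rintro _ ⟨v, rfl⟩
    obtain ⟨c, u, hcu⟩ := hyY v
    rw [SetLike.mem_coe, hcu]
    exact Ideal.mul_mem_left _ _ (Ideal.subset_span ⟨u, rfl⟩)
  have hPp : Prime (PY Y) := Pool.Agent.H218R3.SLM.taskC K ι (Fin N × Fin N) z0 z1 hz D Y
    (hsub z0) (hsub z1)
  -- a derivative which does not vanish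
  obtain ⟨u₀, hu₀⟩ : ∃ u, Y u ≠ 0 := by
    by_contra hcon
    push Not at hcon
    have h1 : (fun _ : ι => (1 : K)) = 0 := by
      apply hy0
      intro v
      obtain ⟨c, u, hcu⟩ := hyY v
      rw [hcu]
      change eval _ (C c * Y u) = 0
      rw [hcon u, mul_zero, map_zero]
    exact one_ne_zero (congrFun h1 z0)
  have hmapA : map b (pderiv u₀ (perN k N)) = pderiv u₀ (perN K N) := by
    rw [← pderiv_map, map_perN]
  have hA0 : pderiv u₀ (perN k N) ≠ 0 := by
    intro h0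
    apply hu₀
    rw [hY]
    beta_reduce
    rw [← hmapA, h0, map_zero, map_zero]
  obtain ⟨hfA, B, hfB, hsplit⟩ := per_split k N u₀
  obtain ⟨d, g, hdg⟩ := vanish_dvd u₀ _ B (perN k N) hfA hfB hA0 hsplit (∏ j ∈ Z, h j) hvan
  have hdg' : (pderiv u₀ (perN K N)) ^ d * ∏ j ∈ Z, map b (h j) = perN K N * map b g := by
    rw [← hmapA, ← map_pow, ← map_prod, ← map_mul, hdg, map_mul, map_perN]
  have hh' : ∀ j ∈ Z, map b (h j) ≠ 0 := by
    intro j hj h0
    exact hh j hj (map_injective b b.injective (by rw [h0, map_zero]))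
  obtain ⟨j, hj, hjd⟩ := exists_index S (perN K N) hS0 hPp Z (fun j => map b (h j)) hh' _ hu₀ d _
    hdg'
  refine ⟨j, hj, ?_⟩
  rintro m ⟨s, M, P, F, hP, hF, hM, hv⟩
  obtain ⟨o, Q, Q', hQ, hQ', hQ0, hPQ, hQd⟩ := init_exists S Y (map b (h j)) (hh' j hj) hjd
  obtain ⟨W, hW, hgood, hW1, hW2⟩ := good_ratfunc k K b ι (Fin N × Fin N) S hS s M P hP F hF (h j)
    hv
  obtain ⟨W', hW', hgood', h1, h2⟩ := good_spec K ι (Fin N × Fin N) S _ W hW hgood _ hW1 hW2
    (o + 1) o Q Q' hQ hQ'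
  have h3 := lead_ineq K ι (Fin N × Fin N) z0 z1 hz Y hPp (Q.coeff 0) hQ0 hPQ (3 * M.card) W' hW'
    hgood' h1 (fun u => by rw [← hQd u]; exact h2 u) V y (a - 1) (by omega) hyh hy0 hyY
  rw [hcard] at h3
  exact h3.trans (Nat.mul_le_mul_right _ (Nat.pow_le_pow_right (by norm_num) (by omega)))

/-- exact programs are limits -/
lemma lim_of_exact (k : Type*) [Field k] (σ : Type*) (h : MvPolynomial σ k) (s : ℕ) (M : Finset ℕ)
    (g : ℕ → MvPolynomial σ k) (hg : NSLP s M g) (hh : ∃ i < s, h = g i) (m : ℕ)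
    (hm : M.card ≤ m) : Lim k σ h m := by
  obtain ⟨i, hi, hhi⟩ := hh
  refine ⟨s, M, _, map RatFunc.C h, hg.map RatFunc.C, ⟨i, hi, by rw [hhi]⟩, hm, fun d => ?_⟩
  rw [coeff_map, RatFunc.denom_C, Polynomial.eval_one, RatFunc.eval_C]
  exact ⟨one_ne_zero, rfl⟩

end Pool.Agent.H505R3.SLM
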