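import Pool.Agent.H505R3.SLM.Indep

/-!
# The dimension bound
-/

set_option autoImplicit false
set_option linter.unusedSectionVars false

open MvPolynomial Module

namespace Pool.Agent.H505R3.SLM

open Pool.Agent.H546R2.SL

/-- the window of exponents -/
def Win (ι : Type) [Fintype ι] (z0 : ι) (e M T : ℕ) : Set (ι →₀ ℕ) :=
  {μ | μ z0 = 0 ∧ e * T + M ≤ ∑ i, μ i ∧ ∑ i, μ i ≤ e * T + T}

lemma win_finite (ι : Type) [Fintype ι] (z0 : ι) (e M T : ℕ) : (Win ι z0 e M T).Finite := by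
  have h1 : (Ex ι (e * T + T)).Finite := finite_Ex (ι := ι) (e * T + T)
  refine h1.subset ?_
  intro μ hμ
  rw [mem_Ex]
  exact hμ.2.2

theorem dim_bound {K : Type*} [Field K] [CharZero K] {ι σ : Type} [Fintype ι] [Fintype σ]
    (Y : σ → MvPolynomial ι K) (hPp : Prime (PY Y)) (H : MvPolynomial (ι ⊕ σ) K) (hH0 : H ≠ 0)
    (hPH : PY Y ∣ H) (W : Submodule (Om K σ) (MvPolynomial ι (Om K σ))) (hfg : W.FG)
    (hW : restrictTotalDegree ι (Om K σ) 1 ≤ W) (hHW : spz K ι σ H ∈ W)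
    (hdW : ∀ u, spz K ι σ (pderiv (Sum.inr u) H) ∈ W)
    {V : Type*} (y : V → MvPolynomial ι K) (e : ℕ) (hyh : ∀ v, (y v).IsHomogeneous e)
    (hyY : ∀ v, ∃ (c : K) (u : σ), y v = C c * Y u)
    (M : ℕ) (hM : ∀ d ≥ M, ∀ p : MvPolynomial ι K, p.IsHomogeneous d →
      p ∈ Ideal.span (Set.range y))
    (z0 : ι) (u : σ) (m : ι →₀ ℕ) (hm : m z0 ≠ 0) (hu : coeff m (Y u) ≠ 0) (T : ℕ) :
    (T + 1) * Nat.card (Win ι z0 e M T) ≤ finrank (Om K σ) ↥(W ^ (3 * T)) := by
  classical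
  -- the multiplicity
  have hfin : FiniteMultiplicity (PY Y) H := FiniteMultiplicity.of_not_isUnit hPp.not_unit hH0
  obtain ⟨G₀, hG₀, hG₀'⟩ := hfin.exists_eq_pow_mul_and_not_dvd
  obtain ⟨k, hk⟩ : ∃ k, multiplicity (PY Y) H = k + 1 := by
    rcases hmz : multiplicity (PY Y) H with _ | k
    · rw [hmz, pow_zero, one_mul] at hG₀
      exact absurd (hG₀ ▸ hPH) hG₀'
    · exact ⟨k, rfl⟩
  rw [hk] at hG₀
  set G : MvPolynomial (ι ⊕ σ) K := C ((k : K) + 1) * G₀ with hG
  have hk0 : (k : K) + 1 ≠ 0 := by exact_mod_cast Nat.succ_ne_zero k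
  have hGd : ¬ PY Y ∣ G := by
    intro h
    apply hG₀'
    have h1 : G₀ = C ((k : K) + 1)⁻¹ * G := by
      rw [hG, ← mul_assoc, ← map_mul, inv_mul_cancel₀ hk0, map_one, one_mul]
    rw [h1]
    exact Dvd.dvd.mul_left h _
  have hder : ∀ w, pderiv (Sum.inr w) H =
      PY Y ^ k * (G * rename Sum.inl (Y w) + PY Y * pderiv (Sum.inr w) G₀) := by
    intro w
    rw [hG₀, Derivation.leibniz, Derivation.leibniz_pow, pderiv_PY, hG]
    simp only [smul_eq_mul, Nat.add_sub_cancel, nsmul_eq_mul, map_add, map_one, map_natCast]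
    push_cast
    ring
  have hyD : ∀ v, ∃ (c : K) (Y' : MvPolynomial ι K) (D : MvPolynomial (ι ⊕ σ) K), y v = C c * Y' ∧
      spz K ι σ (PY Y ^ k * (G * rename Sum.inl Y' + PY Y * D)) ∈ W := by
    intro v
    obtain ⟨c, w, hcw⟩ := hyY v
    exact ⟨c, Y w, pderiv (Sum.inr w) G₀, hcw, by rw [← hder w]; exact hdW w⟩
  have hone : (1 : MvPolynomial ι (Om K σ)) ∈ W := hW (by rw [mem_restrictTotalDegree]; simp)
  have hrep : ∀ μ : Win ι z0 e M T, ∃ R : MvPolynomial (ι ⊕ σ) K,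
      spz K ι σ (PY Y ^ (k * T) * (G ^ T * rename Sum.inl (monomial μ.1 (1 : K)) + PY Y * R)) ∈
        W ^ (2 * T) := by
    rintro ⟨μ, hμ0, hμ1, hμ2⟩
    obtain ⟨t, ht⟩ : ∃ t, ∑ i, μ i = e * T + t := ⟨∑ i, μ i - e * T, by omega⟩
    have hhom : (monomial μ (1 : K)).IsHomogeneous (e * T + t) := by
      apply isHomogeneous_monomial
      rw [← ht, Finsupp.degree_eq_sum]
    obtain ⟨R, hR⟩ := Rep.all hW y e hyh M hM hyD T t (by omega) _ hhom
    exact ⟨R, pow_mono_of_one_mem W hone (by omega) hR⟩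
  choose R hR using hrep
  have hfinW := win_finite ι z0 e M T
  have : Fintype (Win ι z0 e M T) := hfinW.fintype
  -- the family
  set F : Fin (T + 1) × Win ι z0 e M T → MvPolynomial ι (Om K σ) := fun a =>
    spz K ι σ (H ^ (a.1 : ℕ) * (PY Y ^ (k * T) *
      (G ^ T * rename Sum.inl (monomial a.2.1 (1 : K)) + PY Y * R a.2))) with hF
  have hFW : ∀ a, F a ∈ W ^ (3 * T) := by
    rintro ⟨r, μ⟩
    have h1 : spz K ι σ (H ^ (r : ℕ)) ∈ W ^ T := by
      rw [map_pow]
      exact pow_mono_of_one_mem W hone (by omega) (Submodule.pow_mem_pow W hHW _)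
    have h2 := Submodule.mul_mem_mul h1 (hR μ)
    rw [← map_mul, ← pow_add, show T + 2 * T = 3 * T by ring] at h2
    exact h2
  have hind : LinearIndependent (Om K σ) F := by
    rw [← LinearIndependent.iff_fractionRing (MvPolynomial σ K) (Om K σ),
      Fintype.linearIndependent_iff]
    intro c hc
    have h0 : (∑ r ∈ Finset.range (T + 1), ∑ a ∈ (Finset.univ : Finset (Win ι z0 e M T)),
        rename Sum.inr (if hr : r < T + 1 then c (⟨r, hr⟩, a) else 0) *
        (H ^ r * (PY Y ^ (k * T) * (G ^ T * rename Sum.inl (monomial a.1 (1 : K)) +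
          PY Y * R a))) : MvPolynomial (ι ⊕ σ) K) = 0 := by
      apply spz_injective (K := K) (ι := ι) (σ := σ)
      rw [map_zero, ← hc, Fintype.sum_prod_type, Finset.sum_range, map_sum]
      apply Finset.sum_congr rfl
      intro r _
      rw [map_sum]
      apply Finset.sum_congr rfl
      intro a _
      rw [dif_pos r.2, hF, smul_spz]
    have h1 := indep_core Y hPp z0 u m hm hu G hGd H hH0 hPH (k * T) T T
      (Finset.univ : Finset (Win ι z0 e M T)) (fun a => a.1)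
      (fun a _ b _ hab => Subtype.ext hab) (fun a _ => a.2.1) R _ h0
    rintro ⟨r, a⟩
    have h2 := h1 r r.2 a (Finset.mem_univ _)
    rwa [dif_pos r.2] at h2
  have hfd : FiniteDimensional (Om K σ) ↥(W ^ (3 * T)) := Module.Finite.iff_fg.mpr (hfg.pow _)
  have hind' : LinearIndependent (Om K σ)
      (fun a => (⟨F a, hFW a⟩ : ↥(W ^ (3 * T)))) := by
    apply LinearIndependent.of_comp (W ^ (3 * T)).subtype
    exact hind
  have hcard := hind'.fintype_card_le_finrank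
  rw [Fintype.card_prod, Fintype.card_fin] at hcard
  rw [Nat.card_eq_fintype_card]
  exact hcard

end Pool.Agent.H505R3.SLM
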