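import Pool.Agent.H505R3.SLM.NTree

/-!
# The bound for trees which separate the zeros of the permanent from generic matrices
-/

set_option autoImplicit false
set_option linter.unusedSectionVars false

open MvPolynomial Finset Filter Topology

namespace Pool.Agent.H505R3.SLM

open Pool.Agent.H546R2.SL Pool.Agent.H213R3.PC

universe u

variable {K : Type u} [NontriviallyNormedField K] {σ : Type}

/-- restriction to a line -/
lemma eval_line (x₀ y : σ → K) (q : MvPolynomial σ K) (t : K) :
    (aeval (fun v => Polynomial.C (x₀ v) + Polynomial.X * Polynomial.C (y v)) q :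
      Polynomial K).eval t = eval (fun v => x₀ v + t * y v) q := by
  induction q using MvPolynomial.induction_on with
  | C a => simp
  | add p q hp hq => rw [map_add, Polynomial.eval_add, hp, hq, map_add]
  | mul_X p i hp =>
    rw [map_mul, Polynomial.eval_mul, hp, map_mul, aeval_X, eval_X, Polynomial.eval_add,
      Polynomial.eval_C, Polynomial.eval_mul, Polynomial.eval_X, Polynomial.eval_C]

/-- near each point there are points where a given nonzero polynomial does not vanish -/
lemma exists_near [Infinite K] (q : MvPolynomial σ K) (hq : q ≠ 0) (x₀ : σ → K)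
    (P : (σ → K) → Prop) (hP : ∀ᶠ x in 𝓝 x₀, P x) : ∃ x, P x ∧ eval x q ≠ 0 := by
  classical
  obtain ⟨x₁, hx₁⟩ : ∃ x, eval x q ≠ 0 := by
    by_contra hcon
    push Not at hcon
    exact hq (MvPolynomial.funext fun x => by rw [hcon x, map_zero])
  set r : Polynomial K := aeval (fun v => Polynomial.C (x₀ v) +
    Polynomial.X * Polynomial.C (x₁ v - x₀ v)) q with hr
  have hre : ∀ t : K, r.eval t = eval (fun v => x₀ v + t * (x₁ v - x₀ v)) q := by
    intro t
    rw [hr]
    exact eval_line x₀ (fun v => x₁ v - x₀ v) q t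
  have hr0 : r ≠ 0 := by
    intro h
    apply hx₁
    have h1 := hre 1
    rw [h, Polynomial.eval_zero] at h1
    rw [h1]
    congr 2
    funext v
    ring
  have hfin : {t : K | r.eval t = 0}.Finite := by
    refine (r.roots.toFinset.finite_toSet).subset ?_
    intro t ht
    rw [Finset.mem_coe, Multiset.mem_toFinset, Polynomial.mem_roots hr0]
    exact ht
  have h1 : ∀ᶠ t in 𝓝[≠] (0 : K), r.eval t ≠ 0 := by
    have := hfin.eventually_cofinite_notMem
    exact this.filter_mono (nhdsNE_le_cofinite 0)
  have h2 : Tendsto (fun t : K => (fun v => x₀ v + t * (x₁ v - x₀ v) : σ → K)) (𝓝[≠] 0)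
      (𝓝 x₀) := by
    have h3 : Continuous (fun t : K => (fun v => x₀ v + t * (x₁ v - x₀ v) : σ → K)) := by
      fun_prop
    have h4 := h3.tendsto 0
    simp only [zero_mul, add_zero] at h4
    exact h4.mono_left nhdsWithin_le_nhds
  have h5 := h2.eventually hP
  obtain ⟨t, ht1, ht2⟩ := (h5.and h1).exists
  exact ⟨_, ht1, by rw [← hre]; exact ht2⟩

theorem tree_bound [CharZero K] (N : ℕ) (hN : 2 ^ 24 ≤ N) (T : NTree K (Fin N × Fin N) 0)
    (q : MvPolynomial (Fin N × Fin N) K) (hq : q ≠ 0)
    (h0 : ∀ X : Matrix (Fin N) (Fin N) K, X.permanent = 0 →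
      T.run (fun p => X p.1 p.2) (fun _ => 0) = true)
    (h1 : ∀ X : Matrix (Fin N) (Fin N) K, eval (fun p => X p.1 p.2) q ≠ 0 →
      T.run (fun p => X p.1 p.2) (fun _ => 0) = false) :
    N ^ 2 * Nat.log 2 N ≤ 1000 * T.cost := by
  classical
  have : Infinite K := CharZero.infinite K
  obtain ⟨a, p, ha, hNa, hnum⟩ := taskE N hN
  set L := T.tests (fun _ => 0) with hL
  have hcheap := T.tests_cheap (fun _ => .const 0) (fun _ => 0)
    (fun j hj => absurd hj (Nat.not_lt_zero j))
  set h : Fin L.length → MvPolynomial (Fin N × Fin N) K := fun j => (L.get j).1 with hh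
  obtain ⟨j, hj, h7⟩ := core_ineq K a p N ha hNa
    (Finset.univ.filter fun j : Fin L.length => h j ≠ 0) h
    (fun j hj => (Finset.mem_filter.mp hj).2) (by
    intro x₀ hx₀
    by_contra hne
    rw [map_prod] at hne
    have h8 := Finset.prod_ne_zero_iff.mp hne
    have h9 : ∀ r ∈ L, r.1 ≠ 0 → eval x₀ r.1 ≠ 0 := by
      intro r hr hr0
      obtain ⟨j, rfl⟩ := List.get_of_mem hr
      exact h8 j (Finset.mem_filter.mpr ⟨Finset.mem_univ _, hr0⟩)
    have h10 : ∀ᶠ x in 𝓝 x₀, ∀ r ∈ {r | r ∈ L}, (eval x r.1 ∈ r.2 ↔ eval x₀ r.1 ∈ r.2) := by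
      rw [Filter.eventually_all_finite (List.finite_toSet L)]
      intro r hr
      by_cases hr0 : r.1 = 0
      · refine Filter.Eventually.of_forall fun x => ?_
        rw [hr0, map_zero, map_zero]
      · have h11 : Tendsto (fun x : Fin N × Fin N → K => eval x r.1) (𝓝 x₀)
            (𝓝 (eval x₀ r.1)) := (MvPolynomial.continuous_eval r.1).tendsto x₀
        exact h11.eventually (T.tests_local (fun _ => 0) r hr _ (h9 r hr hr0))
    obtain ⟨x, hx1, hx2⟩ := exists_near q hq x₀ _ h10
    have h12 := T.run_eq x₀ x (fun _ => 0) (fun r hr => hx1 r hr)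
    simp only [map_zero] at h12
    have h13 := h0 (Matrix.of fun i j => x₀ (i, j)) (by rw [← eval_perN]; exact hx₀)
    have h14 := h1 (Matrix.of fun i j => x (i, j)) hx2
    change T.run x₀ (fun _ => 0) = true at h13
    change T.run x (fun _ => 0) = false at h14
    rw [h13, h14] at h12
    exact Bool.false_ne_true h12)
  have h8 := hcheap (L.get j) (List.get_mem L j)
  refine hnum _ (h7 _ (h8.mono ?_))
  rw [Finset.range_zero, Finset.sum_empty, zero_add]

end Pool.Agent.H505R3.SLM
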