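import Pool.Agent.H505R3.SLM.Rep

/-!
# A large linearly independent family
-/

set_option autoImplicit false
set_option linter.unusedSectionVars false

open MvPolynomial Module

namespace Pool.Agent.H505R3.SLM

open Pool.Agent.H546R2.SL

variable {K : Type*} [Field K] {ι σ : Type*} [Fintype ι] [Fintype σ]

/-- a polynomial without `z0` is not divisible by the generic linear combination -/
lemma not_dvd_of_degreeOf (Y : σ → MvPolynomial ι K) (z0 : ι) (u : σ) (m : ι →₀ ℕ)
    (hm : m z0 ≠ 0) (hu : coeff m (Y u) ≠ 0) {J : Type*} (A : Finset J) (μ : J → (ι →₀ ℕ))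
    (hμ : ∀ a ∈ A, μ a z0 = 0) (c : J → MvPolynomial σ K)
    (hdvd : PY Y ∣ ∑ a ∈ A, rename Sum.inr (c a) * rename Sum.inl (monomial (μ a) (1 : K))) :
    (∑ a ∈ A, rename Sum.inr (c a) * rename Sum.inl (monomial (μ a) (1 : K)) :
      MvPolynomial (ι ⊕ σ) K) = 0 := by
  classical
  by_contra hne
  obtain ⟨q, hq⟩ := hdvd
  have h1 := congrArg (spz K ι σ) hq
  have hne' : spz K ι σ (∑ a ∈ A, rename Sum.inr (c a) *
      rename Sum.inl (monomial (μ a) (1 : K))) ≠ 0 := by
    intro h
    exact hne (spz_injective (by rw [h, map_zero]))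
  rw [map_mul] at h1
  rw [h1] at hne'
  have hP0 := left_ne_zero_of_mul hne'
  have hq0 := right_ne_zero_of_mul hne'
  have h2 := congrArg (degreeOf z0) h1
  rw [degreeOf_mul_eq hP0 hq0] at h2
  have h3 : degreeOf z0 (spz K ι σ (∑ a ∈ A, rename Sum.inr (c a) *
      rename Sum.inl (monomial (μ a) (1 : K)))) ≤ 0 := by
    rw [map_sum]
    apply (degreeOf_sum_le z0 A _).trans
    apply Finset.sup_le
    intro a ha
    rw [map_mul, spz_rename_inr, spz_rename_inl, map_monomial]
    refine (degreeOf_C_mul_le _ _ _).trans ?_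
    rw [map_one, degreeOf_monomial_eq _ _ one_ne_zero, hμ a ha]
  have h4 : coeff m (spz K ι σ (PY Y)) ≠ 0 := by
    unfold PY
    rw [map_sum, coeff_sum]
    have e : ∀ w : σ, coeff m (spz K ι σ (rename Sum.inl (Y w) * X (Sum.inr w))) =
        algebraMap (MvPolynomial σ K) (Om K σ) (C (coeff m (Y w)) * X w) := by
      intro w
      rw [map_mul, spz_rename_inl, spz_inr, mul_comm, coeff_C_mul, coeff_map, map_mul, mul_comm,
        IsScalarTower.algebraMap_apply K (MvPolynomial σ K) (Om K σ) (coeff m (Y w)),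
        algebraMap_eq]
    rw [Finset.sum_congr rfl fun w _ => e w, ← map_sum]
    intro h
    have h5 : (∑ w, C (coeff m (Y w)) * X w : MvPolynomial σ K) = 0 :=
      IsFractionRing.injective (MvPolynomial σ K) (Om K σ) (by rw [h, map_zero])
    have h6 := congrArg (coeff (Finsupp.single u 1)) h5
    rw [coeff_sum, Finset.sum_eq_single u, coeff_C_mul, coeff_X', if_pos rfl, mul_one,
      coeff_zero] at h6
    · exact hu h6
    · intro w _ hw
      rw [coeff_C_mul, coeff_X', if_neg, mul_zero]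
      intro h
      exact hw (Finsupp.single_left_injective one_ne_zero h)
    · intro h; exact absurd (Finset.mem_univ _) h
  have h5 : 0 < degreeOf z0 (spz K ι σ (PY Y)) := by
    have := monomial_le_degreeOf z0 (MvPolynomial.mem_support_iff.mpr h4)
    omega
  omega

/-- the combination vanishes only if the coefficients do -/
lemma coeff_zero_of_sum {J : Type*} (A : Finset J) (μ : J → (ι →₀ ℕ))
    (hinj : Set.InjOn μ A) (c : J → MvPolynomial σ K)
    (h : (∑ a ∈ A, rename Sum.inr (c a) * rename Sum.inl (monomial (μ a) (1 : K)) :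
      MvPolynomial (ι ⊕ σ) K) = 0) : ∀ a ∈ A, c a = 0 := by
  classical
  intro a ha
  have h1 := congrArg (fun x => coeff (μ a) (spz K ι σ x)) h
  simp only [map_sum, coeff_sum, map_zero, coeff_zero] at h1
  rw [Finset.sum_eq_single_of_mem a ha] at h1
  · rw [map_mul, spz_rename_inr, spz_rename_inl, map_monomial, coeff_C_mul, coeff_monomial,
      if_pos rfl, map_one, mul_one] at h1
    exact IsFractionRing.injective (MvPolynomial σ K) (Om K σ) (by rw [h1, map_zero])
  · intro b hb hba
    rw [map_mul, spz_rename_inr, spz_rename_inl, map_monomial, coeff_C_mul, coeff_monomial,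
      if_neg (fun hh => hba (hinj hb ha hh)), mul_zero]

/-- the family is linearly independent over the polynomials in `v` -/
lemma indep_core (Y : σ → MvPolynomial ι K) (hPp : Prime (PY Y)) (z0 : ι) (u : σ) (m : ι →₀ ℕ)
    (hm : m z0 ≠ 0) (hu : coeff m (Y u) ≠ 0) (G : MvPolynomial (ι ⊕ σ) K) (hG : ¬ PY Y ∣ G)
    (H : MvPolynomial (ι ⊕ σ) K) (hH0 : H ≠ 0) (hPH : PY Y ∣ H) (n s T : ℕ)
    {J : Type*} (A : Finset J) (μ : J → (ι →₀ ℕ)) (hinj : Set.InjOn μ A)
    (hμ : ∀ a ∈ A, μ a z0 = 0) (R : J → MvPolynomial (ι ⊕ σ) K)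
    (c : ℕ → J → MvPolynomial σ K)
    (h : (∑ r ∈ Finset.range (T + 1), ∑ a ∈ A, rename Sum.inr (c r a) *
      (H ^ r * (PY Y ^ n * (G ^ s * rename Sum.inl (monomial (μ a) (1 : K)) + PY Y * R a))) :
      MvPolynomial (ι ⊕ σ) K) = 0) : ∀ r < T + 1, ∀ a ∈ A, c r a = 0 := by
  classical
  have hP0 : PY Y ≠ 0 := hPp.ne_zero
  intro r
  induction r using Nat.strong_induction_on with
  | _ r ih =>
    intro hr
    -- the terms
    set U : J → MvPolynomial (ι ⊕ σ) K := fun a =>
      G ^ s * rename Sum.inl (monomial (μ a) (1 : K)) + PY Y * R a with hU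
    have h1 : (H ^ r * PY Y ^ n) * (∑ a ∈ A, rename Sum.inr (c r a) * U a) +
        ∑ r' ∈ (Finset.range (T + 1)).erase r, ∑ a ∈ A, rename Sum.inr (c r' a) *
          (H ^ r' * (PY Y ^ n * U a)) = 0 := by
      rw [← Finset.add_sum_erase (Finset.range (T + 1)) _ (Finset.mem_range.mpr hr)] at h
      rw [← h, Finset.mul_sum]
      congr 1
      apply Finset.sum_congr rfl
      intro a _
      ring
    have h2 : (H ^ r * PY Y ^ n) * PY Y ∣
        ∑ r' ∈ (Finset.range (T + 1)).erase r, ∑ a ∈ A, rename Sum.inr (c r' a) *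
          (H ^ r' * (PY Y ^ n * U a)) := by
      apply Finset.dvd_sum
      intro r' hr'
      rw [Finset.mem_erase, Finset.mem_range] at hr'
      apply Finset.dvd_sum
      intro a ha
      by_cases hlt : r' < r
      · rw [ih r' hlt hr'.2 a ha, map_zero, zero_mul]
        exact dvd_zero _
      · have hgt : r' = r + ((r' - r - 1) + 1) := by omega
        obtain ⟨q, hq⟩ := hPH
        rw [hgt, pow_add, pow_succ]
        refine ⟨rename Sum.inr (c (r + (r' - r - 1 + 1)) a) * H ^ (r' - r - 1) * q * U a, ?_⟩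
        conv_lhs => rw [show H ^ (r' - r - 1) * H = H ^ (r' - r - 1) * (PY Y * q) by rw [← hq]]
        ring
    have h3 : (H ^ r * PY Y ^ n) * PY Y ∣ (H ^ r * PY Y ^ n) *
        (∑ a ∈ A, rename Sum.inr (c r a) * U a) := by
      rw [← dvd_add_left h2]
      rw [h1]
      exact dvd_zero _
    have hne : H ^ r * PY Y ^ n ≠ 0 := mul_ne_zero (pow_ne_zero _ hH0) (pow_ne_zero _ hP0)
    have h4 : PY Y ∣ ∑ a ∈ A, rename Sum.inr (c r a) * U a := (mul_dvd_mul_iff_left hne).mp h3
    have h5 : PY Y ∣ G ^ s * ∑ a ∈ A, rename Sum.inr (c r a) *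
        rename Sum.inl (monomial (μ a) (1 : K)) := by
      have e : ∑ a ∈ A, rename Sum.inr (c r a) * U a =
          G ^ s * (∑ a ∈ A, rename Sum.inr (c r a) *
            rename Sum.inl (monomial (μ a) (1 : K))) +
          PY Y * ∑ a ∈ A, rename Sum.inr (c r a) * R a := by
        rw [Finset.mul_sum, Finset.mul_sum, ← Finset.sum_add_distrib]
        apply Finset.sum_congr rfl
        intro a _
        rw [hU]
        ring
      rw [e] at h4
      exact (dvd_add_left (dvd_mul_right _ _)).mp h4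
    have h6 := (hPp.dvd_or_dvd h5).resolve_left (fun hh => hG (hPp.dvd_of_dvd_pow hh))
    have h7 := not_dvd_of_degreeOf Y z0 u m hm hu A μ hμ (c r) h6
    exact coeff_zero_of_sum A μ hinj (c r) h7

end Pool.Agent.H505R3.SLM
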