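import Pool.Agent.H505R3.SLM.Stmts

/-!
# The numbers
-/

set_option autoImplicit false

namespace Pool.Agent.H505R3.SLM

theorem taskE : TaskE := by
  intro N hN
  obtain ⟨b, hb⟩ : ∃ b, b = Nat.sqrt (N / 13) := ⟨_, rfl⟩
  have hb1 : b * b ≤ N / 13 := by rw [hb]; exact Nat.sqrt_le _
  have hb2 : N / 13 < (b + 1) * (b + 1) := by rw [hb]; exact Nat.lt_succ_sqrt _
  have hN' : 16777216 ≤ N := by norm_num at hN; exact hN
  have hb3 : 1136 ≤ b := by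
    by_contra h
    push Not at h
    have : (b + 1) * (b + 1) ≤ 1136 * 1136 := Nat.mul_le_mul (by omega) (by omega)
    omega
  obtain ⟨a, rfl⟩ : ∃ a, b = a + 1 := ⟨b - 1, by omega⟩
  have hN1 : 13 * ((a + 1) * (a + 1)) ≤ N := by omega
  have hN2 : N < 13 * ((a + 2) * (a + 2)) := by
    have : (a + 1 + 1) * (a + 1 + 1) = (a + 2) * (a + 2) := by ring
    omega
  have e1 : (a + a) * (4 * a + a) + a * (2 * a + a + 2) + (3 * a + a + 1) =
      13 * (a * a) + 6 * a + 1 := by ring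
  have e2 : 13 * ((a + 1) * (a + 1)) = 13 * (a * a) + 26 * a + 13 := by ring
  refine ⟨a, N - (13 * (a * a) + 6 * a + 1), by omega, by rw [e1]; omega, fun m hm => ?_⟩
  obtain ⟨ℓ, hℓ⟩ : ∃ ℓ, ℓ = Nat.log 2 (a - 1) := ⟨_, rfl⟩
  have h1 : 2 ^ ℓ ≤ a - 1 := by rw [hℓ]; exact Nat.pow_log_le_self 2 (by omega)
  have h2 : a - 1 < 2 ^ (ℓ + 1) := by rw [hℓ]; exact Nat.lt_pow_succ_log_self (by norm_num) _
  have h3 : 10 ≤ ℓ := by
    by_contra h
    push Not at h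
    have : 2 ^ (ℓ + 1) ≤ 2 ^ 10 := Nat.pow_le_pow_right (by norm_num) (by omega)
    omega
  obtain ⟨A, hA⟩ : ∃ A, A = a * (a * (a * a)) := ⟨_, rfl⟩
  have hD : a * ((a + a) * (a * a)) = 2 * A := by rw [hA]; ring
  rw [hD] at hm
  have h4 : ℓ * (2 * A - 2) ≤ 3 * m + 2 * (2 * A) := by
    have h5 : 2 ^ (ℓ * (2 * A - 2)) ≤ 2 ^ (3 * m + 2 * (2 * A)) := by
      calc 2 ^ (ℓ * (2 * A - 2)) = (2 ^ ℓ) ^ (2 * A - 2) := pow_mul _ _ _
        _ ≤ (a - 1) ^ (2 * A - 2) := Nat.pow_le_pow_left h1 _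
        _ ≤ 2 ^ (3 * m) * 3 ^ (2 * A) := hm
        _ ≤ 2 ^ (3 * m) * 4 ^ (2 * A) := Nat.mul_le_mul_left _ (Nat.pow_le_pow_left (by norm_num) _)
        _ = 2 ^ (3 * m + 2 * (2 * A)) := by
            rw [pow_add, pow_mul 2 2 (2 * A)]
            norm_num
    exact (Nat.pow_le_pow_iff_right (by norm_num)).mp h5
  have h6 : a + 2 ≤ 2 ^ (ℓ + 1) + 2 := by omega
  have hp10 : 2 ^ 11 ≤ 2 ^ (ℓ + 1) := Nat.pow_le_pow_right (by norm_num) (by omega)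
  obtain ⟨x, hx⟩ : ∃ x, x = 2 ^ (ℓ + 1) := ⟨_, rfl⟩
  rw [← hx] at h6 hp10 h2
  have hx11 : 2048 ≤ x := by norm_num at hp10; exact hp10
  have h7 : N < 2 ^ (2 * ℓ + 6) := by
    have e : (2 : ℕ) ^ (2 * ℓ + 6) = 16 * (x * x) := by
      rw [hx, ← pow_add, show (16 : ℕ) = 2 ^ 4 by norm_num, ← pow_add]
      congr 1
      ring
    rw [e]
    calc N < 13 * ((a + 2) * (a + 2)) := hN2
      _ ≤ 13 * ((x + 2) * (x + 2)) := Nat.mul_le_mul_left _ (Nat.mul_le_mul h6 h6)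
      _ ≤ 16 * (x * x) := by nlinarith
  have h8 : 2 * Nat.log 2 N ≤ 5 * ℓ := by
    have := Nat.log_lt_of_lt_pow (by omega : N ≠ 0) h7
    omega
  have ha1 : 1135 ≤ a := by omega
  have h9 : 200 * ((a + 2) * (a + 2)) ≤ 201 * (a * a) := by nlinarith
  have h10 : N ^ 2 ≤ 171 * A := by
    have h11 : 200 * N ≤ 2613 * (a * a) := by omega
    have h12 : (200 * N) * (200 * N) ≤ (2613 * (a * a)) * (2613 * (a * a)) :=
      Nat.mul_le_mul h11 h11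
    have e3 : (200 * N) * (200 * N) = 40000 * N ^ 2 := by ring
    have e4 : (2613 * (a * a)) * (2613 * (a * a)) = 6827769 * A := by rw [hA]; ring
    rw [e3, e4] at h12
    omega
  have hA1 : 1000 ≤ A := by
    rw [hA]
    have h13 : 1 ≤ a * (a * a) := Nat.succ_le_of_lt (by positivity)
    calc 1000 ≤ a * 1 := by omega
      _ ≤ a * (a * (a * a)) := Nat.mul_le_mul_left _ h13
  obtain ⟨P, hP⟩ : ∃ P, P = ℓ * A := ⟨_, rfl⟩
  have h14 : 2 * P ≤ 3 * m + 4 * A + 2 * ℓ := by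
    have e5 : ℓ * (2 * A - 2) + 2 * ℓ = 2 * P := by
      obtain ⟨B, hB⟩ : ∃ B, A = B + 1 := ⟨A - 1, by omega⟩
      rw [hP, hB, show 2 * (B + 1) - 2 = 2 * B by omega]
      ring
    omega
  have h15 : 10 * A ≤ P := by rw [hP]; exact Nat.mul_le_mul_right _ h3
  have h16 : 1000 * ℓ ≤ P := by rw [hP, mul_comm ℓ A]; exact Nat.mul_le_mul_right _ hA1
  have h17 : 799 * P ≤ 1500 * m := by omega
  have h18 : 2 * (N ^ 2 * Nat.log 2 N) ≤ 855 * P := by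
    calc 2 * (N ^ 2 * Nat.log 2 N) = N ^ 2 * (2 * Nat.log 2 N) := by ring
      _ ≤ (171 * A) * (5 * ℓ) := Nat.mul_le_mul h10 h8
      _ = 855 * P := by rw [hP]; ring
  omega

end Pool.Agent.H505R3.SLM
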