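import Pool.Agent.H505R3.SLM.Core3
import Pool.Agent.H505R3.SLM.Num
import Pool.Agent.H213R3.PerCirc

/-!
# Computation trees with tests which are locally constant away from zero
-/

set_option autoImplicit false
set_option linter.unusedSectionVars false

open MvPolynomial Finset Filter Topology

namespace Pool.Agent.H505R3.SLM

open Pool.Agent.H546R2.SL Pool.Agent.H213R3.PC

universe u

/-- The value at the point `x` of a node of an arithmetic circuit, where `w j` is the value at `x`
of node number `j`. -/
def out {K : Type u} [Field K] {σ : Type} {i : ℕ} (x : σ → K) (w : ℕ → K) : Node K σ i → K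
  | .var v => x v
  | .const c => c
  | .lin L => (L.map fun p => p.1 * w p.2.1).sum
  | .mul L => (L.map fun j => w j.1).prod

/-- The set `B` is locally constant away from `0`: every `x ≠ 0` has a neighbourhood which is
contained in `B` or disjoint from `B`. -/
def LocalTest {K : Type u} [NontriviallyNormedField K] (B : Set K) : Prop :=
  ∀ x : K, x ≠ 0 → ∀ᶠ y in 𝓝 x, (y ∈ B ↔ x ∈ B)

/-- Computation trees over `K` with input variables `σ`: `NTree K σ i` is the type of the trees
which may use the values number `0, …, i - 1` computed before. A tree is an answer, or it computes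
value number `i` by a gate (a variable, a constant, a linear combination or a product of values
computed before) and continues, or it tests whether value number `j` lies in a set `B` which is
locally constant away from `0`, and continues according to the result. -/
inductive NTree (K : Type u) [NontriviallyNormedField K] (σ : Type) : ℕ → Type u
  | answer {i : ℕ} (b : Bool) : NTree K σ i
  | gate {i : ℕ} (n : Node K σ i) (t : NTree K σ (i + 1)) : NTree K σ i
  | test {i : ℕ} (j : Fin i) (B : Set K) (hB : LocalTest B) (yes no : NTree K σ i) : NTree K σ i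

open Classical in
/-- the answer on input `x`, where `w j` is value number `j` -/
noncomputable def NTree.run {K : Type u} [NontriviallyNormedField K] {σ : Type} (x : σ → K) :
    {i : ℕ} → NTree K σ i → (ℕ → K) → Bool
  | _, .answer b, _ => b
  | i, .gate n t, w => t.run x (Function.update w i (out x w n))
  | _, .test j B _ yes no, w => if w j ∈ B then yes.run x w else no.run x w

/-- The cost of a tree is the largest total cost of the gates on a path from the root to an
answer; linear gates and tests are free, a product of `r` values costs `r - 1`. -/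
def NTree.cost {K : Type u} [NontriviallyNormedField K] {σ : Type} : {i : ℕ} → NTree K σ i → ℕ
  | _, .answer _ => 0
  | _, .gate n t => n.cost + t.cost
  | _, .test _ _ _ yes no => max yes.cost no.cost

section

variable {K : Type u} [Field K] {σ : Type}

lemma value_congr {i : ℕ} (n : Node K σ i) (g g' : ℕ → MvPolynomial σ K)
    (h : ∀ j < i, g j = g' j) : n.value g = n.value g' := by
  cases n with
  | var v => rfl
  | const c => rfl
  | lin L =>
    change (L.map fun p => C p.1 * g p.2.1).sum = (L.map fun p => C p.1 * g' p.2.1).sum
    congr 1
    apply List.map_congr_left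
    intro p _
    rw [h p.2.1 p.2.2]
  | mul L =>
    change (L.map fun j => g j.1).prod = (L.map fun j => g' j.1).prod
    congr 1
    apply List.map_congr_left
    intro p _
    rw [h p.1 p.2]

lemma eval_value {i : ℕ} (n : Node K σ i) (g : ℕ → MvPolynomial σ K) (x : σ → K) :
    eval x (n.value g) = out x (fun j => eval x (g j)) n := by
  cases n with
  | var v => simp [Node.value, out]
  | const c => simp [Node.value, out]
  | lin L =>
    simp only [Node.value, out]
    rw [← List.sum_map_hom]
    congr 1
    apply List.map_congr_left
    intro p _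
    rw [Function.comp_apply, map_mul, eval_C]
  | mul L =>
    simp only [Node.value, out]
    rw [← List.prod_map_hom]
    rfl

lemma Lim.mono {h : MvPolynomial σ K} {m m' : ℕ} (hl : Lim K σ h m) (hm : m ≤ m') :
    Lim K σ h m' := by
  obtain ⟨s, M, g, F, h1, h2, h3, h4⟩ := hl
  exact ⟨s, M, g, F, h1, h2, h3.trans hm, h4⟩

lemma lim_of_circuit (s : ℕ) (node : (i : ℕ) → Node K σ i) (g : ℕ → MvPolynomial σ K)
    (hg : ∀ i < s, g i = (node i).value g) (i : ℕ) (hi : i < s) :
    Lim K σ (g i) (∑ j ∈ range s, (node j).cost) := by
  obtain ⟨s', M, g', h1, -, h3, h4⟩ := Av.circuit node g s hg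
  obtain ⟨j, hj, hgj⟩ := h4 (g i) ⟨i, hi, rfl⟩
  exact lim_of_exact K σ (g i) s' M g' h1 ⟨j, hj, hgj⟩ _ h3

lemma lim_of_border (s : ℕ) (node : (i : ℕ) → Node (RatFunc K) σ i)
    (g : ℕ → MvPolynomial σ (RatFunc K)) (hg : ∀ i < s, g i = (node i).value g) (i : ℕ)
    (hi : i < s) (h : MvPolynomial σ K) (hv : ∀ d, (coeff d (g i)).denom.eval 0 ≠ 0 ∧
      (coeff d (g i)).eval (RingHom.id K) 0 = coeff d h) :
    Lim K σ h (∑ j ∈ range s, (node j).cost) := by
  obtain ⟨s', M, g', h1, -, h3, h4⟩ := Av.circuit node g s hg
  obtain ⟨j, hj, hgj⟩ := h4 (g i) ⟨i, hi, rfl⟩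
  exact ⟨s', M, g', g i, h1, ⟨j, hj, hgj⟩, h3, hv⟩

lemma eval_perN (N : ℕ) (x : Fin N × Fin N → K) :
    eval x (perN K N) = (Matrix.of fun i j => x (i, j)).permanent := by
  unfold perN Matrix.permanent
  rw [map_sum]
  refine Finset.sum_congr rfl fun s _ => ?_
  rw [map_prod]
  refine Finset.prod_congr rfl fun k _ => ?_
  rw [Matrix.of_apply, eval_X, Matrix.of_apply]

/-- `f` vanishes at all matrices with entries in `K` whose permanent is zero. -/
def VanishesWithPer {N : ℕ} (f : MvPolynomial (Fin N × Fin N) K) : Prop :=
  ∀ X : Matrix (Fin N) (Fin N) K, X.permanent = 0 → eval (fun p => X p.1 p.2) f = 0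

lemma VanishesWithPer.van {N : ℕ} {f : MvPolynomial (Fin N × Fin N) K} (h : VanishesWithPer f)
    (x : Fin N × Fin N → K) (hx : eval x (perN K N) = 0) : eval x f = 0 := by
  rw [eval_perN] at hx
  exact h _ hx

/-- bound for one polynomial -/
theorem bound_one [CharZero K] (N : ℕ) (hN : 2 ^ 24 ≤ N)
    (h : MvPolynomial (Fin N × Fin N) K) (hh : h ≠ 0) (hv : VanishesWithPer h) (m : ℕ)
    (hl : Lim K (Fin N × Fin N) h m) : N ^ 2 * Nat.log 2 N ≤ 1000 * m := by
  classical
  obtain ⟨a, p, ha, hNa, hnum⟩ := taskE N hN
  obtain ⟨j, hj, h1⟩ := core_ineq K a p N ha hNa ({()} : Finset Unit) (fun _ => h)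
    (fun _ _ => hh) (fun x hx => by rw [Finset.prod_singleton]; exact hv.van x hx)
  exact hnum m (h1 m hl)

end

variable {K : Type u} [NontriviallyNormedField K] {σ : Type}

/-- the polynomials tested by the tree, with the sets -/
noncomputable def NTree.tests : {i : ℕ} → NTree K σ i → (ℕ → MvPolynomial σ K) →
    List (MvPolynomial σ K × Set K)
  | _, .answer _, _ => []
  | i, .gate n t, g => t.tests (Function.update g i (n.value g))
  | _, .test j B _ yes no, g => (g j, B) :: (yes.tests g ++ no.tests g)

/-- all tests are locally constant away from zero -/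
lemma NTree.tests_local {i : ℕ} (t : NTree K σ i) : ∀ (g : ℕ → MvPolynomial σ K),
    ∀ q ∈ t.tests g, LocalTest q.2 := by
  induction t with
  | answer b => intro g q hq; simp [NTree.tests] at hq
  | gate n t ih => intro g q hq; exact ih _ q hq
  | test j B hB yes no ihy ihn =>
    intro g q hq
    simp only [NTree.tests, List.mem_cons, List.mem_append] at hq
    rcases hq with rfl | hq | hq
    · exact hB
    · exact ihy _ q hq
    · exact ihn _ q hq

/-- all tested polynomials are cheap -/
lemma NTree.tests_cheap {i : ℕ} (t : NTree K σ i) : ∀ (node : (j : ℕ) → Node K σ j)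
    (g : ℕ → MvPolynomial σ K), (∀ j < i, g j = (node j).value g) →
    ∀ q ∈ t.tests g, Lim K σ q.1 (∑ j ∈ range i, (node j).cost + t.cost) := by
  classical
  induction t with
  | answer b => intro node g hg q hq; simp [NTree.tests] at hq
  | @gate i n t ih =>
    intro node g hg q hq
    set node1 : (j : ℕ) → Node K σ j := Function.update node i n with hnode1
    set g1 : ℕ → MvPolynomial σ K := Function.update g i (n.value g) with hg1
    have hlt : ∀ j < i, g1 j = g j := fun j hj => Function.update_of_ne (by omega) _ _
    have h1 := ih node1 g1 (by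
      intro j hj
      rcases Nat.lt_succ_iff_lt_or_eq.1 hj with hj | rfl
      · rw [hlt j hj, hg j hj, hnode1, Function.update_of_ne (by omega)]
        exact value_congr _ _ _ fun l hl => (hlt l (by omega)).symm
      · rw [hnode1, Function.update_self, hg1, Function.update_self]
        exact value_congr _ _ _ fun l hl => (hlt l (by omega)).symm) q hq
    refine h1.mono ?_
    rw [Finset.sum_range_succ, hnode1, Function.update_self]
    have : ∑ j ∈ range i, (Function.update node i n j).cost = ∑ j ∈ range i, (node j).cost := by
      apply Finset.sum_congr rfl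
      intro j hj
      rw [Function.update_of_ne (by have := Finset.mem_range.mp hj; omega)]
    rw [this]
    simp only [NTree.cost]
    omega
  | @test i j B hB yes no ihy ihn =>
    intro node g hg q hq
    have hl := le_max_left yes.cost no.cost
    have hr := le_max_right yes.cost no.cost
    simp only [NTree.tests, List.mem_cons, List.mem_append] at hq
    rcases hq with rfl | hq | hq
    · exact (lim_of_circuit i node g hg j j.2).mono (Nat.le_add_right _ _)
    · refine (ihy node g hg q hq).mono ?_
      simp only [NTree.cost]
      omega
    · refine (ihn node g hg q hq).mono ?_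
      simp only [NTree.cost]
      omega

/-- the run depends only on the results of the tests -/
lemma NTree.run_eq {i : ℕ} (t : NTree K σ i) (x x' : σ → K) : ∀ (g : ℕ → MvPolynomial σ K),
    (∀ q ∈ t.tests g, (eval x' q.1 ∈ q.2 ↔ eval x q.1 ∈ q.2)) →
    t.run x' (fun j => eval x' (g j)) = t.run x (fun j => eval x (g j)) := by
  classical
  induction t with
  | answer b => intro g _; simp [NTree.run]
  | @gate i n t ih =>
    intro g hg
    have h1 := ih (Function.update g i (n.value g)) hg
    have e : ∀ y : σ → K, (fun j => eval y (Function.update g i (n.value g) j)) =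
        Function.update (fun j => eval y (g j)) i (out y (fun j => eval y (g j)) n) := by
      intro y
      funext j
      by_cases hj : j = i
      · subst hj
        rw [Function.update_self, Function.update_self, eval_value]
      · rw [Function.update_of_ne hj, Function.update_of_ne hj]
    rw [e, e] at h1
    simpa [NTree.run] using h1
  | @test i j B hB yes no ihy ihn =>
    intro g hg
    have h0 := hg (g j, B) (by simp [NTree.tests])
    have h1 := ihy g fun q hq => hg q (by
      simp only [NTree.tests, List.mem_cons, List.mem_append]; exact Or.inr (Or.inl hq))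
    have h2 := ihn g fun q hq => hg q (by
      simp only [NTree.tests, List.mem_cons, List.mem_append]; exact Or.inr (Or.inr hq))
    simp only [NTree.run]
    simp only at h0
    by_cases h3 : eval x (g j) ∈ B
    · rw [if_pos h3, if_pos (h0.mpr h3), h1]
    · rw [if_neg h3, if_neg (fun h => h3 (h0.mp h)), h2]

end Pool.Agent.H505R3.SLM
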