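import Pool.Agent.H505R3.SLM.Final

/-!
# Randomized computation trees
-/

set_option autoImplicit false
set_option linter.unusedSectionVars false

open MvPolynomial Finset Filter Topology

namespace Pool.Agent.H505R3.SLM

open Pool.Agent.H546R2.SL Pool.Agent.H213R3.PC

universe u

variable {K : Type u} [NontriviallyNormedField K]

theorem rand_bound [CharZero K] (N : ℕ) (hN : 2 ^ 24 ≤ N) {Ω : Type} [Fintype Ω]
    (w : Ω → ℝ) (hw0 : ∀ ω, 0 ≤ w ω) (hw1 : ∑ ω, w ω = 1) (ε : ℝ)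
    (T : Ω → NTree K (Fin N × Fin N) 0)
    (q : MvPolynomial (Fin N × Fin N) K) (hq : q ≠ 0)
    (h0 : ∀ X : Matrix (Fin N) (Fin N) K, X.permanent = 0 →
      1 - ε ≤ ∑ ω, if (T ω).run (fun p => X p.1 p.2) (fun _ => 0) = true then w ω else 0)
    (h1 : ∀ X : Matrix (Fin N) (Fin N) K, eval (fun p => X p.1 p.2) q ≠ 0 →
      1 - ε ≤ ∑ ω, if (T ω).run (fun p => X p.1 p.2) (fun _ => 0) = false then w ω else 0) :
    1 - 2 * ε ≤ ∑ ω, if N ^ 2 * Nat.log 2 N ≤ 1000 * (T ω).cost then w ω else 0 := by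
  classical
  have : Infinite K := CharZero.infinite K
  obtain ⟨a, p, ha, hNa, hnum⟩ := taskE N hN
  set L : Ω → List (MvPolynomial (Fin N × Fin N) K × Set K) := fun ω => (T ω).tests (fun _ => 0)
    with hL
  have hcheap := fun ω => (T ω).tests_cheap (fun _ => .const 0) (fun _ => 0)
    (fun j hj => absurd hj (Nat.not_lt_zero j))
  set h : (Σ ω, Fin (L ω).length) → MvPolynomial (Fin N × Fin N) K :=
    fun j => ((L j.1).get j.2).1 with hh
  set Z : Finset (Σ ω, Fin (L ω).length) := Finset.univ.filter fun j =>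
    ¬ (N ^ 2 * Nat.log 2 N ≤ 1000 * (T j.1).cost) ∧ h j ≠ 0 with hZ
  -- a zero of the permanent where the tested polynomials of the cheap trees do not vanish
  obtain ⟨x₀, hx₀, hne⟩ : ∃ x₀ : Fin N × Fin N → K, eval x₀ (perN K N) = 0 ∧
      eval x₀ (∏ j ∈ Z, h j) ≠ 0 := by
    by_contra hcon
    push Not at hcon
    obtain ⟨j, hj, h7⟩ := core_ineq K a p N ha hNa Z h
      (fun j hj => (Finset.mem_filter.mp hj).2.2) hcon
    apply (Finset.mem_filter.mp hj).2.1
    have h8 := hcheap j.1 ((L j.1).get j.2) (List.get_mem (L j.1) j.2)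
    refine hnum _ (h7 _ (h8.mono ?_))
    rw [Finset.range_zero, Finset.sum_empty, zero_add]
  rw [map_prod] at hne
  have h8 := Finset.prod_ne_zero_iff.mp hne
  have h10 : ∀ᶠ x in 𝓝 x₀, ∀ ω : Ω, ¬ (N ^ 2 * Nat.log 2 N ≤ 1000 * (T ω).cost) →
      ∀ r ∈ {r | r ∈ L ω}, (eval x r.1 ∈ r.2 ↔ eval x₀ r.1 ∈ r.2) := by
    rw [Filter.eventually_all]
    intro ω
    by_cases hω : N ^ 2 * Nat.log 2 N ≤ 1000 * (T ω).cost
    · exact Filter.Eventually.of_forall fun x hx => absurd hω hx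
    · have h9 : ∀ r ∈ L ω, r.1 ≠ 0 → eval x₀ r.1 ≠ 0 := by
        intro r hr hr0
        obtain ⟨j, rfl⟩ := List.get_of_mem hr
        exact h8 ⟨ω, j⟩ (Finset.mem_filter.mpr ⟨Finset.mem_univ _, hω, hr0⟩)
      have h11 : ∀ᶠ x in 𝓝 x₀, ∀ r ∈ {r | r ∈ L ω}, (eval x r.1 ∈ r.2 ↔ eval x₀ r.1 ∈ r.2) := by
        rw [Filter.eventually_all_finite (List.finite_toSet (L ω))]
        intro r hr
        by_cases hr0 : r.1 = 0
        · refine Filter.Eventually.of_forall fun x => ?_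
          rw [hr0, map_zero, map_zero]
        · have h11 : Tendsto (fun x : Fin N × Fin N → K => eval x r.1) (𝓝 x₀)
              (𝓝 (eval x₀ r.1)) := (MvPolynomial.continuous_eval r.1).tendsto x₀
          exact h11.eventually ((T ω).tests_local (fun _ => 0) r hr _ (h9 r hr hr0))
      exact h11.mono fun x hx _ => hx
  obtain ⟨x, hx1, hx2⟩ := exists_near q hq x₀ _ h10
  have hrun : ∀ ω : Ω, ¬ (N ^ 2 * Nat.log 2 N ≤ 1000 * (T ω).cost) →
      (T ω).run x (fun _ => 0) = (T ω).run x₀ (fun _ => 0) := by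
    intro ω hω
    have h12 := (T ω).run_eq x₀ x (fun _ => 0) (fun r hr => hx1 ω hω r hr)
    simpa only [map_zero] using h12
  have h13 := h0 (Matrix.of fun i j => x₀ (i, j)) (by rw [← eval_perN]; exact hx₀)
  have h14 := h1 (Matrix.of fun i j => x (i, j)) hx2
  change 1 - ε ≤ ∑ ω, if (T ω).run x₀ (fun _ => 0) = true then w ω else 0 at h13
  change 1 - ε ≤ ∑ ω, if (T ω).run x (fun _ => 0) = false then w ω else 0 at h14
  have h15 : (∑ ω, if (T ω).run x₀ (fun _ => 0) = true then w ω else 0) +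
      (∑ ω, if (T ω).run x (fun _ => 0) = false then w ω else 0) ≤
      ∑ ω, w ω + ∑ ω, if N ^ 2 * Nat.log 2 N ≤ 1000 * (T ω).cost then w ω else 0 := by
    rw [← Finset.sum_add_distrib, ← Finset.sum_add_distrib]
    apply Finset.sum_le_sum
    intro ω _
    have hw := hw0 ω
    by_cases hω : N ^ 2 * Nat.log 2 N ≤ 1000 * (T ω).cost
    · rw [if_pos hω]
      split_ifs <;> linarith
    · rw [if_neg hω, hrun ω hω]
      rcases (T ω).run x₀ (fun _ => 0) with _ | _ <;> simp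
  rw [hw1] at h15
  linarith

end Pool.Agent.H505R3.SLM
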