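import Pool.Agent.H505R3.SLM.Spz

/-!
# Products of the derivatives of an initial form
-/

set_option autoImplicit false
set_option linter.unusedSectionVars false

open MvPolynomial Module

namespace Pool.Agent.H505R3.SLM

open Pool.Agent.H546R2.SL

variable {K : Type*} [Field K] {ι σ : Type*} [Fintype ι] [Fintype σ]

/-- the form `p` is represented in degree `s` -/
def Rep (W : Submodule (Om K σ) (MvPolynomial ι (Om K σ))) (P G : MvPolynomial (ι ⊕ σ) K) (k : ℕ)
    (s t : ℕ) (p : MvPolynomial ι K) : Prop :=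
  ∃ R : MvPolynomial (ι ⊕ σ) K,
    spz K ι σ (P ^ (k * s) * (G ^ s * rename Sum.inl p + P * R)) ∈ W ^ t

variable {W : Submodule (Om K σ) (MvPolynomial ι (Om K σ))} {P G : MvPolynomial (ι ⊕ σ) K} {k : ℕ}

lemma Rep.add {s t : ℕ} {p q : MvPolynomial ι K} (hp : Rep W P G k s t p)
    (hq : Rep W P G k s t q) : Rep W P G k s t (p + q) := by
  obtain ⟨R, hR⟩ := hp
  obtain ⟨R', hR'⟩ := hq
  refine ⟨R + R', ?_⟩
  have h := (W ^ t).add_mem hR hR'
  rw [← map_add] at h
  have e : P ^ (k * s) * (G ^ s * rename Sum.inl (p + q) + P * (R + R')) =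
      P ^ (k * s) * (G ^ s * rename Sum.inl p + P * R) +
      P ^ (k * s) * (G ^ s * rename Sum.inl q + P * R') := by
    rw [map_add]; ring
  rw [e]
  exact h

lemma Rep.zero {s t : ℕ} : Rep W P G k s t (0 : MvPolynomial ι K) := by
  refine ⟨0, ?_⟩
  rw [map_zero, mul_zero, mul_zero, add_zero, mul_zero, map_zero]
  exact (W ^ t).zero_mem

lemma Rep.sum {s t : ℕ} {α : Type*} (A : Finset α) (p : α → MvPolynomial ι K)
    (hp : ∀ a ∈ A, Rep W P G k s t (p a)) : Rep W P G k s t (∑ a ∈ A, p a) := by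
  classical
  induction A using Finset.induction_on with
  | empty => rw [Finset.sum_empty]; exact Rep.zero
  | insert a A ha ih =>
    rw [Finset.sum_insert ha]
    exact (hp a (Finset.mem_insert_self _ _)).add
      (ih fun b hb => hp b (Finset.mem_insert_of_mem hb))

lemma Rep.mul_Y {Y : MvPolynomial ι K} {D : MvPolynomial (ι ⊕ σ) K}
    (hD : spz K ι σ (P ^ k * (G * rename Sum.inl Y + P * D)) ∈ W) {s t : ℕ}
    {p : MvPolynomial ι K} (hp : Rep W P G k s t p) (c : K) :
    Rep W P G k (s + 1) (t + 1) (p * (C c * Y)) := by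
  obtain ⟨R, hR⟩ := hp
  refine ⟨C c * (G ^ s * rename Sum.inl p * D + R * G * rename Sum.inl Y + R * P * D), ?_⟩
  have h1 := Submodule.mul_mem_mul hR hD
  rw [← map_mul, ← pow_succ] at h1
  have h2 := (W ^ (t + 1)).smul_mem (algebraMap K (Om K σ) c) h1
  rw [smul_eq_C_mul, ← spz_C, ← map_mul] at h2
  have e : P ^ (k * (s + 1)) * (G ^ (s + 1) * rename Sum.inl (p * (C c * Y)) +
      P * (C c * (G ^ s * rename Sum.inl p * D + R * G * rename Sum.inl Y + R * P * D))) =
      C c * (P ^ (k * s) * (G ^ s * rename Sum.inl p + P * R) *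
        (P ^ k * (G * rename Sum.inl Y + P * D))) := by
    rw [map_mul, map_mul, rename_C, Nat.mul_succ, pow_add]
    ring
  rw [e]
  exact h2

/-- low degree -/
lemma Rep.base (hW : restrictTotalDegree ι (Om K σ) 1 ≤ W) {t : ℕ} {p : MvPolynomial ι K}
    (hp : p.IsHomogeneous t) : Rep W P G k 0 t p := by
  refine ⟨0, ?_⟩
  rw [Nat.mul_zero, pow_zero, pow_zero, one_mul, one_mul, mul_zero, add_zero, spz_rename_inl]
  have h1 : MvPolynomial.map (algebraMap K (Om K σ)) p ∈ restrictTotalDegree ι (Om K σ) t := by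
    rw [mem_restrictTotalDegree]
    exact (Pool.Agent.H632R2.Border.totalDegree_map_le _ _).trans hp.totalDegree_le
  exact pow_le_pow_left' hW t (restrict_le_pow t h1)

/-- all forms of large degree are represented -/
lemma Rep.all (hW : restrictTotalDegree ι (Om K σ) 1 ≤ W) {V : Type*} (y : V → MvPolynomial ι K)
    (e : ℕ) (hy : ∀ v, (y v).IsHomogeneous e) (M : ℕ) (hM : ∀ d ≥ M, ∀ p : MvPolynomial ι K,
      p.IsHomogeneous d → p ∈ Ideal.span (Set.range y))
    (hyD : ∀ v, ∃ (c : K) (Y : MvPolynomial ι K) (D : MvPolynomial (ι ⊕ σ) K), y v = C c * Y ∧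
      spz K ι σ (P ^ k * (G * rename Sum.inl Y + P * D)) ∈ W) :
    ∀ s t : ℕ, M ≤ t → ∀ p : MvPolynomial ι K, p.IsHomogeneous (e * s + t) →
      Rep W P G k s (s + t) p := by
  intro s
  induction s with
  | zero =>
    intro t _ p hp
    rw [Nat.mul_zero, zero_add] at hp
    rw [zero_add]
    exact Rep.base hW hp
  | succ s ih =>
    intro t ht p hp
    have hd : e * (s + 1) + t = (e * s + t) + e := by ring
    rw [hd] at hp
    obtain ⟨c, hc, hpc⟩ := homog_repr y e hy _ (by omega) p hp (hM _ (by omega) p hp)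
    rw [hpc]
    apply Rep.sum
    intro v _
    obtain ⟨a, Y, D, h1, h2⟩ := hyD v
    beta_reduce
    rw [h1, show s + 1 + t = s + t + 1 by ring]
    apply Rep.mul_Y h2
    apply ih t ht
    have := hc v
    rwa [Nat.add_sub_cancel] at this

end Pool.Agent.H505R3.SLM
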