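import Pool.Agent.H505R3.SLM.Stmts2

/-!
# The specialization map
-/

set_option autoImplicit false

open MvPolynomial Module

namespace Pool.Agent.H505R3.SLM

variable {K : Type*} [Field K] {ι σ : Type*}

lemma spz_C (a : K) : spz K ι σ (C a) = C (algebraMap K (Om K σ) a) := by
  unfold spz
  rw [coe_eval₂Hom, eval₂_C]
  rfl

lemma spz_inl (i : ι) : spz K ι σ (X (Sum.inl i)) = X i := by
  unfold spz
  rw [coe_eval₂Hom, eval₂_X]
  rfl

lemma spz_inr (u : σ) : spz K ι σ (X (Sum.inr u)) =
    C (algebraMap (MvPolynomial σ K) (Om K σ) (X u)) := by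
  unfold spz
  rw [coe_eval₂Hom, eval₂_X]
  rfl

lemma spz_rename_inl (p : MvPolynomial ι K) : spz K ι σ (rename Sum.inl p) =
    MvPolynomial.map (algebraMap K (Om K σ)) p := by
  induction p using MvPolynomial.induction_on with
  | C a => rw [rename_C, spz_C, map_C]
  | add p q hp hq => rw [map_add, map_add, map_add, hp, hq]
  | mul_X p i hp => rw [map_mul, map_mul, map_mul, hp, rename_X, spz_inl, map_X]

lemma spz_rename_inr (p : MvPolynomial σ K) : spz K ι σ (rename Sum.inr p) =
    C (algebraMap (MvPolynomial σ K) (Om K σ) p) := by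
  induction p using MvPolynomial.induction_on with
  | C a =>
    rw [rename_C, spz_C, IsScalarTower.algebraMap_apply K (MvPolynomial σ K) (Om K σ) a,
      algebraMap_eq]
  | add p q hp hq => rw [map_add, map_add, map_add, hp, hq, map_add]
  | mul_X p i hp => rw [map_mul, map_mul, map_mul, hp, rename_X, spz_inr, map_mul]

lemma spz_injective : Function.Injective (spz K ι σ) := by
  have h : ∀ p, spz K ι σ p = MvPolynomial.map (algebraMap (MvPolynomial σ K) (Om K σ))
      (sumAlgEquiv K ι σ p) := by
    intro p
    induction p using MvPolynomial.induction_on with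
    | C a =>
      have h1 : sumAlgEquiv K ι σ (C a) = C (C a) := sumAlgEquiv_C_inl _ _ _ _
      rw [spz_C, h1, map_C, IsScalarTower.algebraMap_apply K (MvPolynomial σ K) (Om K σ) a,
        algebraMap_eq]
    | add p q hp hq => rw [map_add, map_add, map_add, hp, hq]
    | mul_X p i hp =>
      rw [map_mul, map_mul, map_mul, hp]
      congr 1
      rcases i with i | u
      · have h1 : sumAlgEquiv K ι σ (X (Sum.inl i)) = X i := sumAlgEquiv_X_inl _ _ _ _
        rw [spz_inl, h1, map_X]
      · have h1 : sumAlgEquiv K ι σ (X (Sum.inr u)) = C (X u) := sumAlgEquiv_X_inr _ _ _ _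
        rw [spz_inr, h1, map_C]
  intro p q hpq
  rw [h, h] at hpq
  exact (sumAlgEquiv K ι σ).injective
    (map_injective _ (IsFractionRing.injective (MvPolynomial σ K) (Om K σ)) hpq)

/-- multiplication by a scalar -/
lemma smul_spz (c : MvPolynomial σ K) (x : MvPolynomial (ι ⊕ σ) K) :
    c • spz K ι σ x = spz K ι σ (rename Sum.inr c * x) := by
  rw [map_mul, spz_rename_inr, ← smul_eq_C_mul, algebraMap_smul]

/-- the generic linear combination -/
noncomputable def PY [Fintype σ] (Y : σ → MvPolynomial ι K) : MvPolynomial (ι ⊕ σ) K :=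
  ∑ u, rename Sum.inl (Y u) * X (Sum.inr u)

lemma pderiv_inr_rename (u : σ) (p : MvPolynomial ι K) :
    pderiv (Sum.inr u) (rename Sum.inl p : MvPolynomial (ι ⊕ σ) K) = 0 := by
  induction p using MvPolynomial.induction_on with
  | C a => rw [rename_C, pderiv_C]
  | add p q hp hq => rw [map_add, map_add, hp, hq, add_zero]
  | mul_X p i hp =>
    rw [map_mul, rename_X, Derivation.leibniz, hp, pderiv_X_of_ne (by simp)]
    simp

lemma pderiv_PY [Fintype σ] (Y : σ → MvPolynomial ι K) (u : σ) :
    pderiv (Sum.inr u) (PY Y) = rename Sum.inl (Y u) := by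
  classical
  unfold PY
  rw [map_sum, Finset.sum_eq_single u]
  · rw [Derivation.leibniz, pderiv_X_self, pderiv_inr_rename]
    simp
  · intro w _ hw
    rw [Derivation.leibniz, pderiv_X_of_ne (by simpa using hw), pderiv_inr_rename]
    simp
  · intro h; exact absurd (Finset.mem_univ _) h

end Pool.Agent.H505R3.SLM
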