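import Pool.Agent.H546R2.SM.B8

/-!
# Statements of the sub-tasks: circuits for multiples of the permanent
-/

set_option autoImplicit false

open MvPolynomial

namespace Pool.Agent.H505R3.SLM

open Pool.Agent.H546R2.SL (Nm perN)

/-- counting monomials: `Nm ι t` is the number of monomials of degree at most `t` in the variables
`ι`; on the right, monomials without `z0` in a window of degrees. -/
def TaskA : Prop := ∀ (ι : Type) [Fintype ι] [DecidableEq ι] (z0 z1 : ι), z0 ≠ z1 →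
  ∀ e M T' T : ℕ, 0 < e → T = T' + Fintype.card ι + M →
  e ^ (Fintype.card ι - 2) * Nm ι T' ≤ (T + 1) * Nat.card {μ : ι →₀ ℕ //
    μ z0 = 0 ∧ e * T + M ≤ ∑ i, μ i ∧ ∑ i, μ i ≤ e * T + T}

/-- growth of `Nm` -/
def TaskB : Prop := ∀ (ι : Type) [Fintype ι] (a b c : ℕ),
  (∀ t, a * Nm ι t ≤ b * Nm ι (3 * t + c)) → a ≤ b * 3 ^ Fintype.card ι

/-- a generic linear combination of forms without common factor is prime -/
def TaskC.{u} : Prop := ∀ (K : Type u) [Field K] (ι σ : Type) [Fintype σ] [DecidableEq σ]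
  (i j : ι), i ≠ j → ∀ (n : ℕ) (y : σ → MvPolynomial ι K),
  (X i ^ n : MvPolynomial ι K) ∈ Ideal.span (Set.range y) →
  (X j ^ n : MvPolynomial ι K) ∈ Ideal.span (Set.range y) →
  Prime (∑ u, rename Sum.inl (y u) * X (Sum.inr u) : MvPolynomial (ι ⊕ σ) K)

/-- a large family of matrices of permanent zero with many independent derivatives -/
def TaskD.{u} : Prop := ∀ (K : Type u) [Field K] [IsAlgClosed K] [CharZero K]
  (q h k p N : ℕ), 2 ≤ k →
  N = (q + q) * (4 * k + h) + h * (2 * k + h + 2) + (3 * k + h + 1) + p →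
  ∃ (S : Fin N × Fin N → MvPolynomial (Fin q × Fin (q + q) × Fin h × Fin k) K) (V : Type)
    (y : V → MvPolynomial (Fin q × Fin (q + q) × Fin h × Fin k) K),
    (∀ u, S u ∈ restrictTotalDegree (Fin q × Fin (q + q) × Fin h × Fin k) K 1) ∧
    aeval S (perN K N) = 0 ∧ (∀ v, (y v).IsHomogeneous (k - 1)) ∧
    (∀ ξ : Fin q × Fin (q + q) × Fin h × Fin k → K, (∀ v, eval ξ (y v) = 0) → ξ = 0) ∧
    ∀ v, ∃ (c : K) (u : Fin N × Fin N), y v = C c * aeval S (pderiv u (perN K N))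

/-- the numbers -/
def TaskE : Prop := ∀ N : ℕ, 2 ^ 24 ≤ N → ∃ a p : ℕ, 2 ≤ a ∧
  N = (a + a) * (4 * a + a) + a * (2 * a + a + 2) + (3 * a + a + 1) + p ∧
  ∀ m : ℕ, (a - 1) ^ (a * ((a + a) * (a * a)) - 2) ≤ 2 ^ (3 * m) * 3 ^ (a * ((a + a) * (a * a))) →
    N ^ 2 * Nat.log 2 N ≤ 1000 * m

end Pool.Agent.H505R3.SLM
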