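import Pool.Agent.H505R3.SLM.Stmts
import Pool.Agent.H632R2.Border3

/-!
# Statements of the sub-tasks: initial forms
-/

set_option autoImplicit false

open MvPolynomial

namespace Pool.Agent.H505R3.SLM

open Pool.Agent.H546R2.SL (Nm perN NSLP Good)

section
variable {K : Type*} [Field K] {ι σ : Type*}

/-- expansion of a polynomial around the points `S z`: `X u ↦ S u (z) + τ v_u`, where `z` are the
variables `inl`, `v` are the variables `inr` and `τ` is the variable of the outer polynomial ring -/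
noncomputable def Phi (S : σ → MvPolynomial ι K) :
    MvPolynomial σ K →ₐ[K] Polynomial (MvPolynomial (ι ⊕ σ) K) :=
  aeval (fun u => Polynomial.C (rename Sum.inl (S u)) + Polynomial.X * Polynomial.C (X (Sum.inr u)))

/-- the field of rational functions in the variables `v` -/
abbrev Om (K σ : Type*) [Field K] := FractionRing (MvPolynomial σ K)

/-- the variables `v` become scalars -/
noncomputable def spz (K ι σ : Type*) [Field K] : MvPolynomial (ι ⊕ σ) K →+* MvPolynomial ι (Om K σ) :=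
  eval₂Hom ((C : Om K σ →+* MvPolynomial ι (Om K σ)).comp (algebraMap K (Om K σ)))
    (Sum.elim X (fun u => C (algebraMap (MvPolynomial σ K) (Om K σ) (X u))))

/-- the generic derivative of `f` at `S z` in the direction `v` -/
noncomputable def Pf [Fintype σ] (S : σ → MvPolynomial ι K) (f : MvPolynomial σ K) :
    MvPolynomial (ι ⊕ σ) K :=
  ∑ u, rename Sum.inl (aeval S (pderiv u f)) * X (Sum.inr u)

end

/-- initial forms of a multiple -/
def TaskF.{u} : Prop := ∀ (K : Type u) [Field K] (ι σ : Type) [Fintype σ]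
  (S : σ → MvPolynomial ι K) (f g : MvPolynomial σ K), f * g ≠ 0 → aeval S f = 0 → Pf S f ≠ 0 →
  ∃ (o : ℕ) (Q : Polynomial (MvPolynomial (ι ⊕ σ) K)) (Q' : σ → Polynomial (MvPolynomial (ι ⊕ σ) K)),
    Phi S (f * g) = Polynomial.X ^ (o + 1) * Q ∧
    (∀ u, Phi S (pderiv u (f * g)) = Polynomial.X ^ o * Q' u) ∧
    Q.coeff 0 ≠ 0 ∧ Pf S f ∣ Q.coeff 0 ∧ ∀ u, (Q' u).coeff 0 = pderiv (Sum.inr u) (Q.coeff 0)

/-- specialization of the degree bound to initial forms -/
def TaskG.{u} : Prop := ∀ (K : Type u) [Field K] (ι σ : Type) [Fintype ι] [Fintype σ]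
  (S : σ → MvPolynomial ι K), (∀ u, S u ∈ restrictTotalDegree ι K 1) →
  ∀ (s : ℕ) (M : Finset ℕ) (g : ℕ → MvPolynomial σ K), NSLP s M g →
  ∀ h : MvPolynomial σ K, (∃ i < s, h = g i) →
  ∀ (o o' : ℕ) (Q : Polynomial (MvPolynomial (ι ⊕ σ) K))
    (Q' : σ → Polynomial (MvPolynomial (ι ⊕ σ) K)),
    Phi S h = Polynomial.X ^ o * Q →
    (∀ u, Phi S (pderiv u h) = Polynomial.X ^ o' * Q' u) →
  ∃ W : Submodule (Om K σ) (MvPolynomial ι (Om K σ)),
    restrictTotalDegree ι (Om K σ) 1 ≤ W ∧ Good (Nm ι) (3 * M.card) W ∧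
    spz K ι σ (Q.coeff 0) ∈ W ∧ ∀ u, spz K ι σ ((Q' u).coeff 0) ∈ W

end Pool.Agent.H505R3.SLM
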